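import Pool.Agent.TH127.MU.CharRep
import Mathlib.NumberTheory.NumberField.Basic
import Mathlib.RingTheory.Ideal.Over

/-!
# Inertia groups in the absolute Galois group
-/

namespace Pool.Agent.TH127.MU

open Module NumberField

/-- The ring of the algebraic integers. -/
abbrev ZZbar : Type := 𝓞 (algebraicClosure ℚ ℂ)

/-- The action of an automorphism on the algebraic integers. -/
noncomputable def act (σ : GQ) : ZZbar ≃+* ZZbar := RingOfIntegers.mapRingEquiv σ.toRingEquiv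

lemma act_apply (σ : GQ) (x : ZZbar) :
    ((act σ x : ZZbar) : algebraicClosure ℚ ℂ) = σ (x : algebraicClosure ℚ ℂ) := rfl

lemma act_mul (σ τ : GQ) (x : ZZbar) : act (σ * τ) x = act σ (act τ x) := rfl

lemma act_one (x : ZZbar) : act 1 x = x := rfl

lemma act_act_inv (σ : GQ) (x : ZZbar) : act σ (act σ⁻¹ x) = x := by
  rw [← act_mul, mul_inv_cancel, act_one]

lemma act_inv_act (σ : GQ) (x : ZZbar) : act σ⁻¹ (act σ x) = x := by
  rw [← act_mul, inv_mul_cancel, act_one]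

/-- The inertia group of the prime `𝔓`: the automorphisms that act trivially modulo `𝔓`. -/
noncomputable def inertia (𝔓 : Ideal ZZbar) : Subgroup GQ where
  carrier := {σ | ∀ x : ZZbar, act σ x - x ∈ 𝔓}
  one_mem' := fun x => by rw [act_one, sub_self]; exact 𝔓.zero_mem
  mul_mem' := fun {σ τ} hσ hτ x => by
    have e : act (σ * τ) x - x = (act σ (act τ x) - act τ x) + (act τ x - x) := by
      rw [act_mul]; ring
    rw [e]
    exact 𝔓.add_mem (hσ _) (hτ _)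
  inv_mem' := fun {σ} hσ x => by
    have e : act σ⁻¹ x - x = - (act σ (act σ⁻¹ x) - act σ⁻¹ x) := by
      rw [act_act_inv]; ring
    rw [e]
    exact 𝔓.neg_mem (hσ _)

/-- The decomposition group of the prime `𝔓`: the automorphisms that map `𝔓` to `𝔓`. -/
noncomputable def decomp (𝔓 : Ideal ZZbar) : Subgroup GQ where
  carrier := {σ | ∀ x : ZZbar, act σ x ∈ 𝔓 ↔ x ∈ 𝔓}
  one_mem' := fun _ => Iff.rfl
  mul_mem' := fun {σ τ} hσ hτ x => by rw [act_mul, hσ, hτ]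
  inv_mem' := fun {σ} hσ x => by rw [← hσ, act_act_inv]

lemma inertia_comap (σ : GQ) (𝔓 : Ideal ZZbar) :
    inertia (𝔓.comap (act σ)) = (inertia 𝔓).map (MulAut.conj σ⁻¹).toMonoidHom := by
  ext τ
  constructor
  · intro h
    refine ⟨σ * τ * σ⁻¹, fun x => ?_, ?_⟩
    · have h1 : act σ (act τ (act σ⁻¹ x) - act σ⁻¹ x) ∈ 𝔓 := h (act σ⁻¹ x)
      rw [map_sub, act_act_inv] at h1
      exact h1
    · show σ⁻¹ * (σ * τ * σ⁻¹) * (σ⁻¹)⁻¹ = τ
      group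
  · rintro ⟨ρ, hρ, rfl⟩ x
    show act σ (act (σ⁻¹ * ρ * (σ⁻¹)⁻¹) x - x) ∈ 𝔓
    have e : act (σ⁻¹ * ρ * (σ⁻¹)⁻¹) x = act σ⁻¹ (act ρ (act σ x)) := by
      rw [inv_inv]; rfl
    rw [map_sub, e, act_act_inv]
    exact hρ _

lemma decomp_comap (σ : GQ) (𝔓 : Ideal ZZbar) :
    decomp (𝔓.comap (act σ)) = (decomp 𝔓).map (MulAut.conj σ⁻¹).toMonoidHom := by
  ext τ
  constructor
  · intro h
    refine ⟨σ * τ * σ⁻¹, fun x => ?_, ?_⟩
    · have h1 : act σ (act τ (act σ⁻¹ x)) ∈ 𝔓 ↔ act σ (act σ⁻¹ x) ∈ 𝔓 := h (act σ⁻¹ x)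
      rw [act_act_inv] at h1
      exact h1
    · show σ⁻¹ * (σ * τ * σ⁻¹) * (σ⁻¹)⁻¹ = τ
      group
  · rintro ⟨ρ, hρ, rfl⟩ x
    show act σ (act (σ⁻¹ * ρ * (σ⁻¹)⁻¹) x) ∈ 𝔓 ↔ act σ x ∈ 𝔓
    have e : act (σ⁻¹ * ρ * (σ⁻¹)⁻¹) x = act σ⁻¹ (act ρ (act σ x)) := by
      rw [inv_inv]; rfl
    rw [e, act_act_inv]
    exact hρ _

/-- The inertia groups of the primes (the maximal ideals of the ring of algebraic integers). -/
def inertiaGroups : Set (Subgroup GQ) := {I | ∃ 𝔓 : Ideal ZZbar, 𝔓.IsMaximal ∧ I = inertia 𝔓}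

/-- The inertia groups of all primes and the decomposition groups of the primes that contain `p`. -/
def splitGroups (p : ℕ) : Set (Subgroup GQ) :=
  inertiaGroups ∪ {D | ∃ 𝔓 : Ideal ZZbar, 𝔓.IsMaximal ∧ (p : ZZbar) ∈ 𝔓 ∧ D = decomp 𝔓}

/-- Up to automorphisms over `B` only finitely many primes contain a given integer `n ≠ 0`, in other
words, `B` has only finitely many primes above each prime number. -/
def FewPrimes (B : IntermediateField ℚ ℂ) : Prop :=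
  ∀ n : ℤ, n ≠ 0 → ∃ 𝓕 : Set (Ideal ZZbar), 𝓕.Finite ∧
    ∀ 𝔔 : Ideal ZZbar, 𝔔.IsMaximal → (n : ZZbar) ∈ 𝔔 →
      ∃ 𝔓 ∈ 𝓕, ∃ σ ∈ absGal B, 𝔔 = 𝔓.comap (act σ)

lemma isMaximal_comap_act (σ : GQ) (𝔓 : Ideal ZZbar) (h : 𝔓.IsMaximal) :
    (𝔓.comap (act σ)).IsMaximal := Ideal.comap_isMaximal_of_equiv (act σ)

lemma conjClosed_inertiaGroups : ConjClosed inertiaGroups := by
  rintro _ ⟨𝔓, h𝔓, rfl⟩ σ
  refine ⟨𝔓.comap (act σ⁻¹), isMaximal_comap_act _ _ h𝔓, ?_⟩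
  rw [inertia_comap, inv_inv]

lemma conjClosed_splitGroups (p : ℕ) : ConjClosed (splitGroups p) := by
  rintro I (hI | ⟨𝔓, h𝔓, hp, rfl⟩) σ
  · exact Or.inl (conjClosed_inertiaGroups I hI σ)
  · refine Or.inr ⟨𝔓.comap (act σ⁻¹), isMaximal_comap_act _ _ h𝔓, ?_, ?_⟩
    · rw [Ideal.mem_comap, map_natCast]
      exact hp
    · rw [decomp_comap, inv_inv]

/-- An integer in each prime whose inertia group acts nontrivially on `L`. -/
lemma exists_bad_integer (L : IntermediateField ℚ ℂ) [FiniteDimensional ℚ L] [Normal ℚ L] :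
    ∃ d : ℤ, d ≠ 0 ∧ ∀ 𝔔 : Ideal ZZbar, ∀ τ ∈ inertia 𝔔, τ ∉ absGal L → (d : ZZbar) ∈ 𝔔 := by
  classical
  have hL : NumberField L := ⟨⟩
  have key : ∀ σ : L ≃ₐ[ℚ] L, ∃ n : ℤ, n ≠ 0 ∧ (σ ≠ 1 → ∀ 𝔔 : Ideal ZZbar, ∀ τ ∈ inertia 𝔔,
      rr L τ = σ → (n : ZZbar) ∈ 𝔔) := by
    intro σ
    by_cases hσ : σ = 1
    · exact ⟨1, one_ne_zero, fun h => absurd hσ h⟩
    obtain ⟨x, hx⟩ : ∃ x : 𝓞 L, σ (x : L) ≠ x := by
      by_contra hcon
      push Not at hcon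
      apply hσ
      refine AlgEquiv.ext fun y => ?_
      obtain ⟨a, b, hb, rfl⟩ := IsFractionRing.div_surjective (A := 𝓞 L) y
      show σ (algebraMap (𝓞 L) L a / algebraMap (𝓞 L) L b) = _
      rw [map_div₀]
      have h1 := hcon a
      have h2 := hcon b
      rw [show σ (algebraMap (𝓞 L) L a) = algebraMap (𝓞 L) L a from h1,
        show σ (algebraMap (𝓞 L) L b) = algebraMap (𝓞 L) L b from h2]
      rfl
    have hxint : IsIntegral ℤ (⟨(x : L), le_algClosure L (x : L).2⟩ : algebraicClosure ℚ ℂ) := by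
      have h1 : IsIntegral ℤ (x : L) := x.2
      have h2 : IsIntegral ℤ (((x : L) : ℂ)) := h1.map (L.val.toRingHom.toIntAlgHom)
      exact (isIntegral_algHom_iff ((algebraicClosure ℚ ℂ).val.toRingHom.toIntAlgHom)
        (algebraicClosure ℚ ℂ).val.injective).1 h2
    let x' : ZZbar := ⟨_, hxint⟩
    obtain ⟨τ₀, hτ₀⟩ := rr_surjective L σ
    let y : ZZbar := act τ₀ x' - x'
    have hy : y ≠ 0 := by
      intro h0
      apply hx
      have h1 : act τ₀ x' = x' := sub_eq_zero.1 h0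
      have h2 := congrArg (fun z : ZZbar => ((z : algebraicClosure ℚ ℂ) : ℂ)) h1
      apply Subtype.ext
      rw [← hτ₀, rr_apply]
      exact h2
    have hyint : IsIntegral ℤ y := Algebra.IsIntegral.isIntegral y
    refine ⟨∏ i ∈ (minpoly ℤ y).support, (minpoly ℤ y).coeff i,
      Finset.prod_ne_zero_iff.2 fun i hi => Polynomial.mem_support_iff.1 hi,
      fun _ 𝔔 τ hτ hτσ => ?_⟩
    have h1 : act τ x' = act τ₀ x' := by
      apply RingOfIntegers.coe_injective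
      apply Subtype.ext
      have h2 := rr_apply L τ (x : L)
      have h3 := rr_apply L τ₀ (x : L)
      rw [hτσ, ← hτ₀] at h2
      exact h2.symm.trans h3
    have h2 : y ∈ 𝔔 := by
      have h3 := hτ x'
      rwa [h1] at h3
    obtain ⟨i, hi, h3⟩ := Ideal.exists_coeff_ne_zero_mem_comap_of_root_mem
      (f := algebraMap ℤ ZZbar) hy h2 (minpoly.ne_zero hyint) (minpoly.aeval ℤ y)
    rw [Ideal.mem_comap] at h3
    obtain ⟨m, hm⟩ := Finset.dvd_prod_of_mem (minpoly ℤ y).coeff (Polynomial.mem_support_iff.2 hi)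
    rw [hm, Int.cast_mul]
    refine 𝔔.mul_mem_right _ ?_
    simpa using h3
  choose n hn0 hn using key
  refine ⟨∏ σ, n σ, Finset.prod_ne_zero_iff.2 fun σ _ => hn0 σ, fun 𝔔 τ hτ hτL => ?_⟩
  have hne : rr L τ ≠ 1 := fun h => hτL ((rr_eq_one_iff L τ).1 h)
  have h1 := hn (rr L τ) hne 𝔔 τ hτ rfl
  obtain ⟨m, hm⟩ := Finset.dvd_prod_of_mem n (Finset.mem_univ (rr L τ))
  rw [hm, Int.cast_mul]
  exact 𝔔.mul_mem_right _ h1

/-- Only finitely many primes of `B` ramify in `L B` or lie above `p`. -/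
theorem fewRamified_splitGroups (p : ℕ) (hp : p ≠ 0) (B : IntermediateField ℚ ℂ)
    (hB : FewPrimes B) : FewRamified (splitGroups p) B := by
  intro L _ _
  obtain ⟨d, hd, hbad⟩ := exists_bad_integer L
  obtain ⟨𝓕, h𝓕, hF⟩ := hB (d * p) (mul_ne_zero hd (by exact_mod_cast hp))
  refine ⟨(inertia '' {𝔓 ∈ 𝓕 | 𝔓.IsMaximal}) ∪
    (decomp '' {𝔓 ∈ 𝓕 | 𝔓.IsMaximal ∧ (p : ZZbar) ∈ 𝔓}), ?_, ?_, ?_⟩
  · exact ((h𝓕.subset fun _ h => h.1).image _).union ((h𝓕.subset fun _ h => h.1).image _)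
  · rintro _ (⟨𝔓, ⟨_, h1⟩, rfl⟩ | ⟨𝔓, ⟨_, h1, h2⟩, rfl⟩)
    · exact Or.inl ⟨𝔓, h1, rfl⟩
    · exact Or.inr ⟨𝔓, h1, h2, rfl⟩
  · rintro I (⟨𝔔, h𝔔, rfl⟩ | ⟨𝔔, h𝔔, hp𝔔, rfl⟩)
    · by_cases hI : inertia 𝔔 ⊓ absGal B ≤ absGal L
      · exact Or.inl hI
      · right
        obtain ⟨τ, hτ, hτL⟩ := SetLike.not_le_iff_exists.1 hI
        have h1 := hbad 𝔔 τ hτ.1 hτL
        have h2 : ((d * p : ℤ) : ZZbar) ∈ 𝔔 := by
          rw [Int.cast_mul]
          exact 𝔔.mul_mem_right _ h1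
        obtain ⟨𝔓, h𝔓, σ, hσ, rfl⟩ := hF 𝔔 h𝔔 h2
        have h𝔓m : 𝔓.IsMaximal := by
          have h3 := isMaximal_comap_act σ⁻¹ _ h𝔔
          have e : (𝔓.comap (act σ)).comap (act σ⁻¹) = 𝔓 := by
            ext x
            rw [Ideal.mem_comap, Ideal.mem_comap, act_act_inv]
          rwa [e] at h3
        exact ⟨_, Or.inl ⟨𝔓, ⟨h𝔓, h𝔓m⟩, rfl⟩, σ⁻¹, inv_mem hσ, inertia_comap σ 𝔓⟩
    · right
      have h2 : ((d * p : ℤ) : ZZbar) ∈ 𝔔 := by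
        rw [Int.cast_mul, Int.cast_natCast]
        exact 𝔔.mul_mem_left _ hp𝔔
      obtain ⟨𝔓, h𝔓, σ, hσ, rfl⟩ := hF 𝔔 h𝔔 h2
      have h𝔓m : 𝔓.IsMaximal := by
        have h3 := isMaximal_comap_act σ⁻¹ _ h𝔔
        have e : (𝔓.comap (act σ)).comap (act σ⁻¹) = 𝔓 := by
          ext x
          rw [Ideal.mem_comap, Ideal.mem_comap, act_act_inv]
        rwa [e] at h3
      have hp𝔓 : (p : ZZbar) ∈ 𝔓 := by
        rw [Ideal.mem_comap, map_natCast] at hp𝔔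
        exact hp𝔔
      exact ⟨_, Or.inr ⟨𝔓, ⟨h𝔓, h𝔓m, hp𝔓⟩, rfl⟩, σ⁻¹, inv_mem hσ, decomp_comap σ 𝔓⟩

/-- A subset that is closed under conjugation. -/
lemma FewRamified.mono {𝓘 𝓘' : Set (Subgroup GQ)} {B : IntermediateField ℚ ℂ}
    (h : FewRamified 𝓘 B) (hsub : 𝓘' ⊆ 𝓘) (hconj : ConjClosed 𝓘') : FewRamified 𝓘' B := by
  intro L hL hLn
  obtain ⟨𝓢, h1, h2, h3⟩ := h L hL hLn
  refine ⟨𝓢 ∩ 𝓘', h1.subset Set.inter_subset_left, Set.inter_subset_right, fun I hI => ?_⟩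
  rcases h3 I (hsub hI) with h4 | ⟨J, hJ, σ, hσ, h4⟩
  · exact Or.inl h4
  · refine Or.inr ⟨J, ⟨hJ, ?_⟩, σ, hσ, h4⟩
    have h5 := hconj I hI σ⁻¹
    have e : I.map (MulAut.conj σ⁻¹).toMonoidHom = J := by
      rw [h4]
      ext x
      constructor
      · rintro ⟨_, ⟨y, hy, rfl⟩, rfl⟩
        show σ⁻¹ * (σ * y * σ⁻¹) * (σ⁻¹)⁻¹ ∈ J
        have e2 : σ⁻¹ * (σ * y * σ⁻¹) * (σ⁻¹)⁻¹ = y := by group
        rw [e2]
        exact hy
      · intro hx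
        refine ⟨_, ⟨x, hx, rfl⟩, ?_⟩
        show σ⁻¹ * (σ * x * σ⁻¹) * (σ⁻¹)⁻¹ = x
        group
    rwa [e] at h5

/-- Only finitely many primes of `B` ramify in `L B`. -/
theorem fewRamified_inertiaGroups (B : IntermediateField ℚ ℂ) (hB : FewPrimes B) :
    FewRamified inertiaGroups B :=
  (fewRamified_splitGroups 1 one_ne_zero B hB).mono Set.subset_union_left
    conjClosed_inertiaGroups

end Pool.Agent.TH127.MU
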