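import Pool.Agent.TH127.MU.Defs
import Mathlib.GroupTheory.PGroup
import Mathlib.RepresentationTheory.Basic
import Mathlib.LinearAlgebra.Dual.Lemmas
import Mathlib.LinearAlgebra.FiniteDimensional.Lemmas
import Mathlib.Algebra.Field.ZMod
import Mathlib.FieldTheory.Finiteness

/-!
# Coinvariants of representations in characteristic `p`
-/

namespace Pool.Agent.TH127.MU

open Module

section pgroup

variable {p : ℕ} [Fact p.Prime] {V : Type*} [AddCommGroup V] [Module (ZMod p) V]
  {Γ : Type*} [Group Γ] [Finite Γ]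

/-- The subspace generated by the vectors `ρ(γ) v - v`. -/
def aug (ρ : Representation (ZMod p) Γ V) : Submodule (ZMod p) V :=
  Submodule.span (ZMod p) {x | ∃ γ v, x = ρ γ v - v}

/-- A representation of a finite `p`-group in characteristic `p` with finite dimensional
coinvariants is finite dimensional. -/
theorem finite_of_pgroup (hΓ : IsPGroup p Γ) (ρ : Representation (ZMod p) Γ V)
    (h : Module.Finite (ZMod p) (V ⧸ aug ρ)) : Module.Finite (ZMod p) V := by
  classical
  have := Fintype.ofFinite Γ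
  obtain ⟨U, hU⟩ := (aug ρ).exists_isCompl
  have hUfin : Module.Finite (ZMod p) U :=
    Module.Finite.equiv (Submodule.quotientEquivOfIsCompl (aug ρ) U hU)
  set U' : Submodule (ZMod p) V := ⨆ γ : Γ, U.map (ρ γ) with hU'
  have hU'fin : Module.Finite (ZMod p) U' := by
    rw [hU']
    have : ∀ γ : Γ, Module.Finite (ZMod p) (U.map (ρ γ)) := fun γ => inferInstance
    exact Submodule.finite_iSup _
  have hstab : ∀ γ : Γ, ∀ u ∈ U', ρ γ u ∈ U' := by
    intro γ u hu
    have h1 : U' ≤ U'.comap (ρ γ) := by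
      rw [hU']
      refine iSup_le fun δ => ?_
      rintro _ ⟨w, hw, rfl⟩
      refine Submodule.mem_iSup_of_mem (γ * δ) ⟨w, hw, ?_⟩
      rw [map_mul]
      rfl
    exact h1 hu
  have htop : U' ⊔ aug ρ = ⊤ := by
    refine top_unique ?_
    rw [← hU.symm.sup_eq_top]
    refine sup_le_sup ?_ le_rfl
    intro u hu
    exact Submodule.mem_iSup_of_mem (1 : Γ) ⟨u, hu, by simp⟩
  by_cases hcase : U' = ⊤
  · rw [hcase] at hU'fin
    exact Module.Finite.equiv (Submodule.topEquiv (R := ZMod p) (M := V))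
  exfalso
  obtain ⟨f, hf0, hf⟩ := Submodule.exists_le_ker_of_lt_top U' (lt_top_iff_ne_top.2 hcase)
  -- the span of the translates of `f`
  let F : Submodule (ZMod p) (V →ₗ[ZMod p] ZMod p) :=
    Submodule.span (ZMod p) (Set.range fun γ : Γ => f ∘ₗ ρ γ)
  have hFfin : Module.Finite (ZMod p) F := by
    have := Module.Finite.span_of_finite (ZMod p) (Set.finite_range fun γ : Γ => f ∘ₗ ρ γ)
    exact this
  have hFfin' : Finite F := Module.finite_of_finite (ZMod p)
  have hFstab : ∀ γ : Γ, ∀ g ∈ F, g ∘ₗ ρ γ ∈ F := by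
    intro γ g hg
    have h1 : F ≤ F.comap (LinearMap.lcomp (ZMod p) (ZMod p) (ρ γ)) := by
      refine Submodule.span_le.2 ?_
      rintro _ ⟨δ, rfl⟩
      refine Submodule.subset_span ⟨δ * γ, ?_⟩
      show f ∘ₗ ρ (δ * γ) = (f ∘ₗ ρ δ) ∘ₗ ρ γ
      rw [map_mul]
      rfl
    exact h1 hg
  have hFU : ∀ g ∈ F, U' ≤ LinearMap.ker g := by
    intro g hg
    induction hg using Submodule.span_induction with
    | mem x hx =>
      obtain ⟨δ, rfl⟩ := hx
      intro u hu
      exact hf (hstab δ u hu)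
    | zero => intro u _; simp
    | add x y _ _ hx hy =>
      intro u hu
      have h1 := hx hu
      have h2 := hy hu
      rw [LinearMap.mem_ker] at h1 h2 ⊢
      rw [LinearMap.add_apply, h1, h2, add_zero]
    | smul a x _ hx =>
      intro u hu
      have h1 := hx hu
      rw [LinearMap.mem_ker] at h1 ⊢
      rw [LinearMap.smul_apply, h1, smul_zero]
  let act : MulAction Γ F :=
    { smul := fun γ g => ⟨g.1 ∘ₗ ρ γ⁻¹, hFstab _ _ g.2⟩
      one_smul := fun g => by
        apply Subtype.ext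
        show g.1 ∘ₗ ρ (1 : Γ)⁻¹ = g.1
        rw [inv_one, map_one]
        rfl
      mul_smul := fun γ δ g => by
        apply Subtype.ext
        show g.1 ∘ₗ ρ (γ * δ)⁻¹ = (g.1 ∘ₗ ρ δ⁻¹) ∘ₗ ρ γ⁻¹
        rw [mul_inv_rev, map_mul]
        rfl }
  have hsmul : ∀ (γ : Γ) (g : F), ((γ • g : F) : V →ₗ[ZMod p] ZMod p) = g.1 ∘ₗ ρ γ⁻¹ :=
    fun _ _ => rfl
  have h0 : (0 : F) ∈ MulAction.fixedPoints Γ F := by
    intro γ
    apply Subtype.ext
    rw [hsmul]
    simp
  have hfF : f ∈ F := Submodule.subset_span ⟨1, by simp [Module.End.one_eq_id]⟩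
  have hcard : p ∣ Nat.card F := by
    have hne : Nontrivial F := ⟨⟨⟨f, hfF⟩, 0, fun hh => hf0 (congrArg Subtype.val hh)⟩⟩
    rw [Module.natCard_eq_pow_finrank (K := ZMod p), Nat.card_zmod]
    exact dvd_pow_self p (Module.finrank_pos (R := ZMod p) (M := F)).ne'
  obtain ⟨g, hg, hg0⟩ :=
    hΓ.exists_fixed_point_of_prime_dvd_card_of_fixed_point F hcard h0
  apply hg0
  apply Subtype.ext
  have h1 : aug ρ ≤ LinearMap.ker g.1 := by
    refine Submodule.span_le.2 ?_
    rintro _ ⟨γ, v, rfl⟩
    have h2 := hg γ⁻¹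
    have h3 : g.1 ∘ₗ ρ γ = g.1 := by
      have h4 := congrArg Subtype.val h2
      rw [hsmul, inv_inv] at h4
      exact h4
    show g.1 (ρ γ v - v) = 0
    have h5 := LinearMap.congr_fun h3 v
    rw [LinearMap.comp_apply] at h5
    rw [map_sub, h5, sub_self]
  have h2 : (⊤ : Submodule (ZMod p) V) ≤ LinearMap.ker g.1 := by
    rw [← htop]
    exact sup_le (hFU g.1 g.2) h1
  show (0 : V →ₗ[ZMod p] ZMod p) = g.1
  ext v
  exact (h2 (Submodule.mem_top (x := v))).symm

end pgroup

section main

variable {p : ℕ} [Fact p.Prime] {V : Type*} [AddCommGroup V] [Module (ZMod p) V]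
  {G : Type*} [Group G] [Finite G] {H : Subgroup G}

/-- Coinvariants under `C ∩ H` and under an involution `c` and its conjugates determine whether a
representation of `H` in characteristic `p` is finite dimensional. Here `D` contains the products of
two conjugates of `c`, which generate the subgroup `M`, and `D / M` is a `p`-group. -/
theorem finite_of_involution (ρ : Representation (ZMod p) H V) (c : G → H)
    (hcc : ∀ g, c g * c g = 1) (hconj : ∀ (h : H) (g : G), h * c g * h⁻¹ = c (h * g))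
    (hc : ∀ g, Module.Finite (ZMod p) (V ⧸ augOn ρ (Subgroup.zpowers (c g : G))))
    (D : Subgroup G) (hD : Module.Finite (ZMod p) (V ⧸ augOn ρ D))
    (hDM : ∀ d ∈ D, ∃ n : ℕ, d ^ p ^ n ∈ Subgroup.closure {x : G | ∃ g g', x = c g * c g'})
    (hMH : Subgroup.closure {x : G | ∃ g g', x = c g * c g'} ≤ H) :
    Module.Finite (ZMod p) V := by
  classical
  have := Fintype.ofFinite G
  -- the image of `1 + c`
  have hrange : ∀ g, Module.Finite (ZMod p) (LinearMap.range (LinearMap.id + ρ (c g))) := by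
    intro g
    have hker : augOn ρ (Subgroup.zpowers (c g : G)) ≤ LinearMap.ker (LinearMap.id + ρ (c g)) := by
      refine Submodule.span_le.2 ?_
      rintro _ ⟨h, hh, v, rfl⟩
      have h1 : h = 1 ∨ h = c g := by
        obtain ⟨k, hk⟩ := Subgroup.mem_zpowers_iff.1 hh
        have h2 : (c g) ^ k = h := by
          apply Subtype.ext
          rw [← hk]
          simp
        have h3 : (c g) ^ (2 : ℤ) = 1 := by
          have := hcc g
          rw [zpow_two, this]
        rcases Int.even_or_odd' k with ⟨l, rfl | rfl⟩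
        · left
          rw [← h2, zpow_mul, h3, one_zpow]
        · right
          rw [← h2, zpow_add, zpow_mul, h3, one_zpow, one_mul, zpow_one]
      rw [SetLike.mem_coe, LinearMap.mem_ker, LinearMap.add_apply, LinearMap.id_apply]
      rcases h1 with rfl | rfl
      · simp
      · have h4 : ρ (c g) (ρ (c g) v) = v := by
          rw [← Module.End.mul_apply, ← map_mul, hcc g, map_one]
          rfl
        rw [map_sub, h4]
        abel
    have h2 : Module.Finite (ZMod p) (V ⧸ LinearMap.ker (LinearMap.id + ρ (c g))) := by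
      have := hc g
      exact Module.Finite.of_surjective (Submodule.factor hker) (Submodule.factor_surjective hker)
    exact Module.Finite.equiv (LinearMap.quotKerEquivRange (LinearMap.id + ρ (c g)))
  set W : Submodule (ZMod p) V := ⨆ g, LinearMap.range (LinearMap.id + ρ (c g)) with hW
  have hWfin : Module.Finite (ZMod p) W := by
    rw [hW]
    exact Submodule.finite_iSup _
  have hWstab : ∀ (h : H) (w : V), w ∈ W → ρ h w ∈ W := by
    intro h w hw
    have h1 : W ≤ W.comap (ρ h) := by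
      rw [hW]
      refine iSup_le fun g => ?_
      rintro _ ⟨v, rfl⟩
      refine Submodule.mem_iSup_of_mem ((h : G) * g) ⟨ρ h v, ?_⟩
      rw [← hconj]
      simp only [LinearMap.add_apply, LinearMap.id_apply, map_add]
      congr 1
      rw [← Module.End.mul_apply, ← Module.End.mul_apply, ← map_mul, ← map_mul]
      congr 2
      group
    exact h1 hw
  have hneg : ∀ g v, v + ρ (c g) v ∈ W := fun g v =>
    Submodule.mem_iSup_of_mem g ⟨v, by simp⟩
  -- elements acting trivially modulo `W`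
  have htriv : ∀ x : G, x ∈ Subgroup.closure {x : G | ∃ g g', x = c g * c g'} →
      ∀ hx : x ∈ H, ∀ v, ρ ⟨x, hx⟩ v - v ∈ W := by
    intro x hx
    induction hx using Subgroup.closure_induction with
    | mem x hx =>
      obtain ⟨g, g', rfl⟩ := hx
      intro hx v
      have e : (⟨(c g : G) * c g', hx⟩ : H) = c g * c g' := Subtype.ext (by simp)
      rw [e, map_mul, Module.End.mul_apply]
      have h1 := hneg g (ρ (c g') v)
      have h2 := hneg g' v
      have h3 : ρ (c g) (ρ (c g') v) - v =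
          (ρ (c g') v + ρ (c g) (ρ (c g') v)) - (v + ρ (c g') v) := by abel
      rw [h3]
      exact W.sub_mem h1 h2
    | one =>
      intro hx v
      have e : (⟨1, hx⟩ : H) = 1 := rfl
      rw [e, map_one]
      simp
    | mul x y hx' hy' hx hy =>
      intro hxy v
      have hxH : x ∈ H := hMH hx'
      have hyH : y ∈ H := hMH hy'
      have e : (⟨x * y, hxy⟩ : H) = ⟨x, hxH⟩ * ⟨y, hyH⟩ := rfl
      rw [e, map_mul, Module.End.mul_apply]
      have h1 := hx hxH (ρ ⟨y, hyH⟩ v)
      have h2 := hy hyH v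
      have h3 := W.add_mem h1 h2
      simpa using h3
    | inv x hx' hx =>
      intro hxi v
      have hxH : x ∈ H := hMH hx'
      have e : (⟨x⁻¹, hxi⟩ : H) = (⟨x, hxH⟩ : H)⁻¹ := rfl
      rw [e]
      have h1 := hWstab (⟨x, hxH⟩ : H)⁻¹ _ (hx hxH v)
      rw [map_sub, ← Module.End.mul_apply, ← map_mul, inv_mul_cancel, map_one] at h1
      have h2 := W.neg_mem h1
      simpa using h2
  -- the quotient representation
  let ρ' : Representation (ZMod p) H (V ⧸ W) :=
    { toFun := fun h => W.mapQ W (ρ h) (fun w hw => hWstab h w hw)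
      map_one' := by
        ext v
        simp
      map_mul' := fun h h' => by
        ext v
        simp [map_mul] }
  have hρ' : ∀ (h : H) (v : V), ρ' h (W.mkQ v) = W.mkQ (ρ h v) := fun _ _ => rfl
  -- the group generated by `D ∩ H` modulo `W`
  let Q : Subgroup H := D.subgroupOf H
  let φ : Q →* ((V ⧸ W) →ₗ[ZMod p] (V ⧸ W))ˣ := (MonoidHom.comp ρ' Q.subtype).toHomUnits
  have hφ : ∀ q : Q, ((φ q : ((V ⧸ W) →ₗ[ZMod p] (V ⧸ W))ˣ) : (V ⧸ W) →ₗ[ZMod p] (V ⧸ W)) =
      ρ' (q : H) := fun _ => rfl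
  let Γ := φ.range
  have hΓfin : Finite Γ := Set.finite_range φ
  have hΓ : IsPGroup p Γ := by
    rintro ⟨_, q, rfl⟩
    obtain ⟨n, hn⟩ := hDM (((q : Q) : H) : G) q.2
    refine ⟨n, ?_⟩
    apply Subtype.ext
    show (φ q) ^ p ^ n = 1
    rw [← map_pow]
    apply Units.ext
    rw [hφ, Units.val_one]
    refine LinearMap.ext fun w => ?_
    obtain ⟨v, rfl⟩ := W.mkQ_surjective w
    rw [hρ', Module.End.one_apply]
    have h1 := htriv _ hn (hMH hn) v
    have e : (⟨(((q : Q) : H) : G) ^ p ^ n, hMH hn⟩ : H) = ((q ^ p ^ n : Q) : H) := by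
      apply Subtype.ext
      simp
    rw [e] at h1
    rw [← sub_eq_zero, ← map_sub]
    exact (Submodule.Quotient.mk_eq_zero W).2 h1
  let σ : Representation (ZMod p) Γ (V ⧸ W) := (Units.coeHom _).comp Γ.subtype
  have hσ : Module.Finite (ZMod p) ((V ⧸ W) ⧸ aug σ) := by
    have hle : (augOn ρ D).map W.mkQ ≤ aug σ := by
      rw [augOn, Submodule.map_span]
      refine Submodule.span_le.2 ?_
      rintro _ ⟨_, ⟨h, hh, v, rfl⟩, rfl⟩
      refine Submodule.subset_span ⟨⟨φ ⟨h, hh⟩, ⟨⟨h, hh⟩, rfl⟩⟩, W.mkQ v, ?_⟩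
      rw [map_sub]
      rfl
    have h1 : augOn ρ D ≤ LinearMap.ker ((aug σ).mkQ ∘ₗ W.mkQ) := by
      intro x hx
      rw [LinearMap.mem_ker, LinearMap.comp_apply]
      exact (Submodule.Quotient.mk_eq_zero (aug σ)).2 (hle ⟨x, hx, rfl⟩)
    exact Module.Finite.of_surjective ((augOn ρ D).liftQ ((aug σ).mkQ ∘ₗ W.mkQ) h1) (by
      intro y
      obtain ⟨z, rfl⟩ := (aug σ).mkQ_surjective y
      obtain ⟨v, rfl⟩ := W.mkQ_surjective z
      exact ⟨(augOn ρ D).mkQ v, rfl⟩)
  have hVW : Module.Finite (ZMod p) (V ⧸ W) := finite_of_pgroup hΓ σ hσ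
  exact Module.Finite.of_submodule_quotient W

end main

end Pool.Agent.TH127.MU
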