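import Mathlib.NumberTheory.NumberField.CMField

/-!
# A criterion for CM fields
-/

namespace Pool.Agent.TH127.MU

open Module NumberField ComplexConjugate ComplexEmbedding InfinitePlace Algebra

/-- A number field with an automorphism `s ≠ 1` that induces complex conjugation under all complex
embeddings is a CM field. -/
theorem isCMField_of_ringEquiv (K : Type*) [Field K] [NumberField K] (s : K ≃+* K)
    (hs : ∀ (φ : K →+* ℂ) (x : K), φ (s x) = conj (φ x)) (hne : ∃ x, s x ≠ x) : IsCMField K := by
  have : IsTotallyComplex K := by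
    refine ⟨fun v => ?_⟩
    rw [← mk_embedding v, isComplex_mk_iff]
    intro hreal
    obtain ⟨x, hx⟩ := hne
    apply hx
    apply v.embedding.injective
    rw [hs]
    exact RingHom.congr_fun hreal x
  let σ : Gal(K/ℚ) := AlgEquiv.ofRingEquiv (f := s) (fun q => by simp)
  have hσ : ∀ φ : K →+* ℂ, IsConj φ σ := fun φ => RingHom.ext fun x => (hs φ x).symm
  let φ : K →+* ℂ := Classical.choice (inferInstance : Nonempty _)
  have hσ' : Nat.card (Subgroup.zpowers σ) = 2 := by
    rw [Nat.card_zpowers, orderOf_isConj_two_of_ne_one (hσ φ)]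
    exact (isConj_ne_one_iff (hσ φ)).mpr <| IsTotallyComplex.complexEmbedding_not_isReal φ
  have : Finite (Subgroup.zpowers σ) := Nat.finite_of_card_ne_zero (by positivity)
  let L : IntermediateField ℚ K := IntermediateField.fixedField (Subgroup.zpowers σ)
  have : IsTotallyReal L := ⟨fun w ↦ by
    obtain ⟨W, rfl⟩ := w.comap_surjective (K := K)
    dsimp only
    rw [← mk_embedding W, comap_mk, isReal_mk_iff]
    refine RingHom.ext fun x => ?_
    show conj (W.embedding (x : K)) = W.embedding (x : K)
    rw [← hs]
    congr 1
    exact (IntermediateField.mem_fixedField_iff _ _).1 x.2 σ (Subgroup.mem_zpowers σ)⟩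
  have : IsQuadraticExtension L K := ⟨by
    rw [IntermediateField.finrank_fixedField_eq_card, hσ']⟩
  exact IsCMField.ofCMExtension L K

end Pool.Agent.TH127.MU
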