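import Pool.Agent.TH127.MU.Main
import Mathlib.FieldTheory.Galois.Infinite
import Mathlib.FieldTheory.AlgebraicClosure

/-!
# Characters of absolute Galois groups and coinvariants
-/

namespace Pool.Agent.TH127.MU

open Module

/-- The absolute Galois group of `ℚ`: the automorphisms of the field of the algebraic numbers in
`ℂ`. -/
abbrev GQ : Type := algebraicClosure ℚ ℂ ≃ₐ[ℚ] algebraicClosure ℚ ℂ

/-- The automorphisms of the field of the algebraic numbers that fix the elements of `E`. -/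
def absGal (E : IntermediateField ℚ ℂ) : Subgroup GQ where
  carrier := {σ | ∀ x : algebraicClosure ℚ ℂ, (x : ℂ) ∈ E → σ x = x}
  one_mem' := fun _ _ => rfl
  mul_mem' := fun {σ τ} hσ hτ x hx => by
    show σ (τ x) = x
    rw [hτ x hx, hσ x hx]
  inv_mem' := fun {σ} hσ x hx => by
    show σ.symm x = x
    rw [AlgEquiv.symm_apply_eq]
    exact (hσ x hx).symm

lemma absGal_mono {E F : IntermediateField ℚ ℂ} (h : E ≤ F) : absGal F ≤ absGal E :=
  fun _ hσ x hx => hσ x (h hx)

lemma normal_bot_rat : Normal ℚ (⊥ : IntermediateField ℚ ℂ) :=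
  Normal.of_algEquiv (IntermediateField.botEquiv ℚ ℂ).symm

lemma normal_sup_rat (K K' : IntermediateField ℚ ℂ) (h : Normal ℚ K) (h' : Normal ℚ K') :
    Normal ℚ (K ⊔ K' : IntermediateField ℚ ℂ) :=
  @IntermediateField.normal_sup ℚ ℂ _ _ _ K K' h h'

lemma isGalois_algClosure : IsGalois ℚ (algebraicClosure ℚ ℂ) := by
  have h0 : IsAlgClosure ℚ (algebraicClosure ℚ ℂ) := algebraicClosure.isAlgClosure ℚ ℂ
  have h1 : Normal ℚ (algebraicClosure ℚ ℂ) := IsAlgClosure.normal ℚ _
  have h2 : Algebra.IsAlgebraic ℚ (algebraicClosure ℚ ℂ) := inferInstance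
  have h3 : Algebra.IsSeparable ℚ (algebraicClosure ℚ ℂ) :=
    Algebra.IsAlgebraic.isSeparable_of_perfectField
  exact ⟨⟩

/-- The characters of the group `U` with values in `ℤ/p` (continued by `0` to the elements outside
`U`) that are continuous (trivial on the elements that fix a suitable number field) and trivial on
the elements of `U` that belong to one of the groups `I ∈ 𝓘`. -/
def chars (p : ℕ) (𝓘 : Set (Subgroup GQ)) (U : Subgroup GQ) :
    Submodule (ZMod p) (GQ → ZMod p) where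
  carrier := {f | (∀ g, g ∉ U → f g = 0) ∧ (∀ g ∈ U, ∀ h ∈ U, f (g * h) = f g + f h) ∧
    (∃ K : IntermediateField ℚ ℂ, FiniteDimensional ℚ K ∧ Normal ℚ K ∧
      ∀ g ∈ U, g ∈ absGal K → f g = 0) ∧
    ∀ I ∈ 𝓘, ∀ g ∈ U, g ∈ I → f g = 0}
  zero_mem' := ⟨fun _ _ => rfl, fun _ _ _ _ => (add_zero 0).symm,
    ⟨⊥, inferInstance, normal_bot_rat, fun _ _ _ => rfl⟩, fun _ _ _ _ _ => rfl⟩
  add_mem' := by
    rintro f f' ⟨h1, h2, ⟨K, hK, hKn, h3⟩, h4⟩ ⟨h1', h2', ⟨K', hK', hKn', h3'⟩, h4'⟩
    refine ⟨fun g hg => ?_, fun g hg h hh => ?_, ⟨K ⊔ K', inferInstance,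
      normal_sup_rat K K' hKn hKn',
      fun g hg hgK => ?_⟩, fun I hI g hg hgI => ?_⟩
    · rw [Pi.add_apply, h1 g hg, h1' g hg, add_zero]
    · rw [Pi.add_apply, Pi.add_apply, Pi.add_apply, h2 g hg h hh, h2' g hg h hh]
      abel
    · rw [Pi.add_apply, h3 g hg (absGal_mono le_sup_left hgK),
        h3' g hg (absGal_mono le_sup_right hgK), add_zero]
    · rw [Pi.add_apply, h4 I hI g hg hgI, h4' I hI g hg hgI, add_zero]
  smul_mem' := by
    rintro c f ⟨h1, h2, ⟨K, hK, hKn, h3⟩, h4⟩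
    refine ⟨fun g hg => ?_, fun g hg h hh => ?_, ⟨K, hK, hKn, fun g hg hgK => ?_⟩,
      fun I hI g hg hgI => ?_⟩
    · rw [Pi.smul_apply, h1 g hg, smul_zero]
    · rw [Pi.smul_apply, Pi.smul_apply, Pi.smul_apply, h2 g hg h hh, smul_add]
    · rw [Pi.smul_apply, h3 g hg hgK, smul_zero]
    · rw [Pi.smul_apply, h4 I hI g hg hgI, smul_zero]

section restrict

lemma le_algClosure (L : IntermediateField ℚ ℂ) [FiniteDimensional ℚ L] :
    L ≤ algebraicClosure ℚ ℂ := by
  intro x hx
  rw [mem_algebraicClosure_iff]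
  have h1 : IsAlgebraic ℚ (⟨x, hx⟩ : L) := Algebra.IsAlgebraic.isAlgebraic _
  exact (isAlgebraic_algebraMap_iff (algebraMap L ℂ).injective).2 h1

variable (L : IntermediateField ℚ ℂ) [FiniteDimensional ℚ L] [Normal ℚ L]

/-- The restriction of automorphisms of the field of the algebraic numbers to `L`. -/
noncomputable def rr : GQ →* (L ≃ₐ[ℚ] L) :=
  letI : Algebra L (algebraicClosure ℚ ℂ) :=
    (IntermediateField.inclusion (le_algClosure L)).toRingHom.toAlgebra
  haveI : IsScalarTower ℚ L (algebraicClosure ℚ ℂ) := IsScalarTower.of_algebraMap_eq fun _ => rfl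
  AlgEquiv.restrictNormalHom L

lemma rr_apply (σ : GQ) (x : L) :
    ((rr L σ x : L) : ℂ) = (σ ⟨x, le_algClosure L x.2⟩ : algebraicClosure ℚ ℂ) := by
  let _ : Algebra L (algebraicClosure ℚ ℂ) :=
    (IntermediateField.inclusion (le_algClosure L)).toRingHom.toAlgebra
  have : IsScalarTower ℚ L (algebraicClosure ℚ ℂ) := IsScalarTower.of_algebraMap_eq fun _ => rfl
  exact congrArg Subtype.val (AlgEquiv.restrictNormal_commutes σ L x)

lemma rr_surjective : Function.Surjective (rr L) := by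
  let _ : Algebra L (algebraicClosure ℚ ℂ) :=
    (IntermediateField.inclusion (le_algClosure L)).toRingHom.toAlgebra
  have : IsScalarTower ℚ L (algebraicClosure ℚ ℂ) := IsScalarTower.of_algebraMap_eq fun _ => rfl
  have : Normal ℚ (algebraicClosure ℚ ℂ) := isGalois_algClosure.to_normal
  exact AlgEquiv.restrictNormalHom_surjective (algebraicClosure ℚ ℂ)

lemma rr_eq_one_iff (σ : GQ) : rr L σ = 1 ↔ σ ∈ absGal L := by
  constructor
  · intro h x hx
    apply Subtype.ext
    have h1 := rr_apply L σ ⟨x, hx⟩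
    rw [h] at h1
    exact h1.symm
  · intro h
    refine AlgEquiv.ext fun x => Subtype.ext ?_
    rw [rr_apply, h ⟨x, le_algClosure L x.2⟩ x.2]
    rfl

lemma mem_absGal_fix (C : Subgroup (L ≃ₐ[ℚ] L)) (σ : GQ) :
    σ ∈ absGal (fix L C) ↔ rr L σ ∈ C := by
  constructor
  · intro h
    have h1 : rr L σ ∈ (IntermediateField.fixedField C).fixingSubgroup := by
      rw [IntermediateField.mem_fixingSubgroup_iff]
      intro x hx
      have h2 : (x : ℂ) ∈ fix L C := (IntermediateField.mem_lift x).2 hx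
      apply Subtype.ext
      rw [rr_apply, h ⟨x, le_algClosure L x.2⟩ h2]
    rwa [IntermediateField.fixingSubgroup_fixedField] at h1
  · intro h x hx
    have hxL : (x : ℂ) ∈ L := fix_le C hx
    have h1 := mem_fix.1 (show (((⟨x, hxL⟩ : L) : L) : ℂ) ∈ fix L C from hx) _ h
    apply Subtype.ext
    have h2 := rr_apply L σ ⟨x, hxL⟩
    rw [h1] at h2
    exact h2.symm

lemma rr_mem_baseGroup (B : IntermediateField ℚ ℂ) (σ : GQ) (hσ : σ ∈ absGal B) :
    rr L σ ∈ baseGroup B L := by
  intro x hx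
  apply Subtype.ext
  rw [rr_apply, hσ ⟨x, le_algClosure L x.2⟩ hx]

lemma exists_lift (B : IntermediateField ℚ ℂ) [Algebra.IsAlgebraic ℚ B] (h : baseGroup B L) :
    ∃ σ ∈ absGal B, rr L σ = h := by
  have hB : B ≤ algebraicClosure ℚ ℂ := by
    intro x hx
    rw [mem_algebraicClosure_iff]
    have h1 : IsAlgebraic ℚ (⟨x, hx⟩ : B) := Algebra.IsAlgebraic.isAlgebraic _
    exact (isAlgebraic_algebraMap_iff (algebraMap B ℂ).injective).2 h1
  let R : Subgroup (L ≃ₐ[ℚ] L) := (absGal B).map (rr L)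
  have h1 : (h : L ≃ₐ[ℚ] L) ∈ (IntermediateField.fixedField R).fixingSubgroup := by
    rw [IntermediateField.mem_fixingSubgroup_iff]
    intro x hx
    apply h.2
    rw [IntermediateField.mem_fixedField_iff] at hx
    have hG : IsGalois ℚ (algebraicClosure ℚ ℂ) := isGalois_algClosure
    have h2 := InfiniteGalois.fixedField_fixingSubgroup (IntermediateField.restrict hB)
    have h3 : (⟨(x : ℂ), le_algClosure L x.2⟩ : algebraicClosure ℚ ℂ) ∈
        IntermediateField.fixedField (IntermediateField.restrict hB).fixingSubgroup := by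
      rw [IntermediateField.mem_fixedField_iff]
      intro σ hσ
      have hσ' : σ ∈ absGal B := by
        intro y hy
        exact (IntermediateField.mem_fixingSubgroup_iff _ _).1 hσ y
          ((IntermediateField.mem_restrict hB y).2 hy)
      have h4 := hx (rr L σ) ⟨σ, hσ', rfl⟩
      apply Subtype.ext
      have h5 := rr_apply L σ x
      rw [h4] at h5
      exact h5.symm
    rw [h2] at h3
    exact (IntermediateField.mem_restrict hB _).1 h3
  rw [IntermediateField.fixingSubgroup_fixedField] at h1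
  obtain ⟨σ, hσ, h2⟩ := h1
  exact ⟨σ, hσ, h2⟩

end restrict

end Pool.Agent.TH127.MU
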