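import Pool.Agent.TH127.MU.Alg

/-!
# Invariants and coinvariants of the dual
-/

namespace Pool.Agent.TH127.MU

open Module

variable {p : ℕ} [Fact p.Prime] {M : Type*} [AddCommGroup M] [Module (ZMod p) M]
  {G : Type*} [Group G] [Finite G] {H : Subgroup G}

/-- The vectors fixed by the elements of `C` in `H`. -/
def invOn (ρ : Representation (ZMod p) H M) (C : Subgroup G) : Submodule (ZMod p) M where
  carrier := {m | ∀ h : H, (h : G) ∈ C → ρ h m = m}
  zero_mem' := fun h _ => map_zero _
  add_mem' := fun {m m'} hm hm' h hh => by rw [map_add, hm h hh, hm' h hh]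
  smul_mem' := fun c m hm h hh => by rw [map_smul, hm h hh]

theorem finite_dual_coinv (ρ : Representation (ZMod p) H M) (C : Subgroup G) :
    Module.Finite (ZMod p) (Dual (ZMod p) M ⧸ augOn ρ.dual C) ↔
      Module.Finite (ZMod p) (invOn ρ C) := by
  classical
  let ι := {h : H // (h : G) ∈ C}
  have := Fintype.ofFinite ι
  let φ : M →ₗ[ZMod p] (ι → M) := LinearMap.pi fun h => ρ (h : H)⁻¹ - LinearMap.id
  have hker : LinearMap.ker φ = invOn ρ C := by
    ext m
    rw [LinearMap.mem_ker]
    constructor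
    · intro h1 h hh
      have h2 := congrFun h1 ⟨h⁻¹, by simpa using hh⟩
      have h3 : ρ (h⁻¹)⁻¹ m - m = 0 := h2
      rw [inv_inv] at h3
      exact sub_eq_zero.1 h3
    · intro h1
      funext h
      show ρ (h : H)⁻¹ m - m = 0
      rw [h1 _ (by simpa using h.2), sub_self]
  have haug : augOn ρ.dual C = LinearMap.range φ.dualMap := by
    apply le_antisymm
    · refine Submodule.span_le.2 ?_
      rintro _ ⟨h, hh, v, rfl⟩
      refine ⟨v ∘ₗ LinearMap.proj (⟨h, hh⟩ : ι), ?_⟩
      ext m
      show v (ρ h⁻¹ m - m) = (ρ.dual h v - v) m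
      rw [map_sub]
      rfl
    · rintro _ ⟨w, rfl⟩
      have h1 : φ.dualMap w = ∑ h : ι, (ρ.dual (h : H) (w ∘ₗ LinearMap.single (ZMod p) (fun _ : ι => M) h) -
          w ∘ₗ LinearMap.single (ZMod p) (fun _ : ι => M) h) := by
        ext m
        rw [LinearMap.sum_apply]
        show w (φ m) = ∑ h : ι, (w (Pi.single h (ρ (h : H)⁻¹ m)) - w (Pi.single h m))
        have h2 : φ m = ∑ h : ι, Pi.single h (φ m h) := (Finset.univ_sum_single (φ m)).symm
        rw [h2, map_sum]
        refine Finset.sum_congr rfl fun h _ => ?_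
        have h3 : φ m h = ρ (h : H)⁻¹ m - m := rfl
        rw [h3, Pi.single_sub, map_sub]
      rw [h1]
      exact Submodule.sum_mem _ fun h _ => Submodule.subset_span ⟨h, h.2, _, rfl⟩
  rw [haug, LinearMap.range_dualMap_eq_dualAnnihilator_ker, hker,
    Module.Finite.equiv_iff (Subspace.quotAnnihilatorEquiv (invOn ρ C)), Module.finite_dual_iff]

end Pool.Agent.TH127.MU
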