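import Pool.Agent.TH127.MU.Char
import Pool.Agent.TH127.MU.Dual

/-!
# The action on characters
-/

namespace Pool.Agent.TH127.MU

open Module

/-- The set `𝓘` of subgroups of the absolute Galois group of `ℚ` is closed under conjugation. -/
def ConjClosed (𝓘 : Set (Subgroup GQ)) : Prop :=
  ∀ I ∈ 𝓘, ∀ σ : GQ, I.map (MulAut.conj σ).toMonoidHom ∈ 𝓘

/-- For each number field `L` which is Galois over `ℚ`, the groups `I ∈ 𝓘` such that `I` has an
element that acts trivially on `B` but not on `L` belong to finitely many conjugacy classes under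
the group of the automorphisms over `B`. -/
def FewRamified (𝓘 : Set (Subgroup GQ)) (B : IntermediateField ℚ ℂ) : Prop :=
  ∀ L : IntermediateField ℚ ℂ, FiniteDimensional ℚ L → Normal ℚ L →
    ∃ 𝓢 : Set (Subgroup GQ), 𝓢.Finite ∧ 𝓢 ⊆ 𝓘 ∧
      ∀ I ∈ 𝓘, I ⊓ absGal B ≤ absGal L ∨
        ∃ J ∈ 𝓢, ∃ σ ∈ absGal B, I = J.map (MulAut.conj σ).toMonoidHom

variable {p : ℕ} {𝓘 : Set (Subgroup GQ)}

section chars

variable {U : Subgroup GQ} {f : GQ → ZMod p} (hf : f ∈ chars p 𝓘 U)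

include hf

lemma chars_mul {g h : GQ} (hg : g ∈ U) (hh : h ∈ U) : f (g * h) = f g + f h :=
  hf.2.1 g hg h hh

lemma chars_one : f 1 = 0 := by
  have h := chars_mul hf (one_mem U) (one_mem U)
  rw [mul_one] at h
  exact left_eq_add.1 h

lemma chars_inv {g : GQ} (hg : g ∈ U) : f g⁻¹ = - f g := by
  have h := chars_mul hf (inv_mem hg) hg
  rw [inv_mul_cancel, chars_one hf] at h
  exact eq_neg_of_add_eq_zero_left h.symm

lemma chars_conj {n : GQ} (hn : n ∈ U) (y : GQ) : f (n⁻¹ * y * n) = f y := by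
  by_cases hy : y ∈ U
  · rw [chars_mul hf (mul_mem (inv_mem hn) hy) hn, chars_mul hf (inv_mem hn) hy, chars_inv hf hn]
    abel
  · rw [hf.1 y hy, hf.1]
    rwa [Subgroup.mul_mem_cancel_right _ hn, Subgroup.mul_mem_cancel_left _ (inv_mem hn)]

end chars

section action

variable (L B : IntermediateField ℚ ℂ) [FiniteDimensional ℚ L] [Normal ℚ L]

lemma conj_mem_absGal (σ x : GQ) : σ⁻¹ * x * σ ∈ absGal L ↔ x ∈ absGal L := by
  rw [← rr_eq_one_iff, ← rr_eq_one_iff, map_mul, map_mul, map_inv]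
  constructor
  · intro h
    have e : rr L x = rr L σ * ((rr L σ)⁻¹ * rr L x * rr L σ) * (rr L σ)⁻¹ := by group
    rw [e, h]
    group
  · intro h
    rw [h]
    group

lemma conj_mem_N {σ : GQ} (hσ : σ ∈ absGal B) (x : GQ) :
    σ⁻¹ * x * σ ∈ absGal L ⊓ absGal B ↔ x ∈ absGal L ⊓ absGal B := by
  rw [Subgroup.mem_inf, Subgroup.mem_inf, conj_mem_absGal,
    Subgroup.mul_mem_cancel_right _ hσ, Subgroup.mul_mem_cancel_left _ (inv_mem hσ)]

/-- The action of an automorphism on characters. -/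
noncomputable def conjLin (h𝓘 : ConjClosed 𝓘) (σ : GQ) (hσ : σ ∈ absGal B) :
    chars p 𝓘 (absGal L ⊓ absGal B) →ₗ[ZMod p] chars p 𝓘 (absGal L ⊓ absGal B) where
  toFun f := ⟨fun x => f.1 (σ⁻¹ * x * σ), by
    obtain ⟨h1, h2, ⟨K, hK, hKn, h3⟩, h4⟩ := f.2
    refine ⟨fun g hg => h1 _ fun h => hg ((conj_mem_N L B hσ g).1 h), fun g hg h hh => ?_,
      ⟨K, hK, hKn, fun g hg hgK => h3 _ ((conj_mem_N L B hσ g).2 hg)
        ((conj_mem_absGal K σ g).2 hgK)⟩, fun I hI g hg hgI => ?_⟩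
    · have e : σ⁻¹ * (g * h) * σ = (σ⁻¹ * g * σ) * (σ⁻¹ * h * σ) := by group
      show f.1 (σ⁻¹ * (g * h) * σ) = f.1 (σ⁻¹ * g * σ) + f.1 (σ⁻¹ * h * σ)
      rw [e]
      exact h2 _ ((conj_mem_N L B hσ g).2 hg) _ ((conj_mem_N L B hσ h).2 hh)
    · refine h4 _ (h𝓘 I hI σ⁻¹) _ ((conj_mem_N L B hσ g).2 hg) ⟨g, hgI, ?_⟩
      show σ⁻¹ * g * (σ⁻¹)⁻¹ = _
      rw [inv_inv]⟩
  map_add' _ _ := rfl
  map_smul' _ _ := rfl

variable {L B} in
lemma conj_eq {f : GQ → ZMod p} (hf : f ∈ chars p 𝓘 (absGal L ⊓ absGal B)) {σ σ' : GQ}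
    (hσ : σ ∈ absGal B) (hσ' : σ' ∈ absGal B) (h : rr L σ = rr L σ') (x : GQ) :
    f (σ⁻¹ * x * σ) = f (σ'⁻¹ * x * σ') := by
  have hn : σ⁻¹ * σ' ∈ absGal L ⊓ absGal B := by
    refine Subgroup.mem_inf.2 ⟨?_, mul_mem (inv_mem hσ) hσ'⟩
    rw [← rr_eq_one_iff, map_mul, map_inv, h, inv_mul_cancel]
  rw [← chars_conj hf hn (σ⁻¹ * x * σ)]
  congr 1
  group

variable [Algebra.IsAlgebraic ℚ B]

/-- A lift. -/
noncomputable def lift (h : baseGroup B L) : GQ := (exists_lift L B h).choose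

lemma lift_mem (h : baseGroup B L) : lift L B h ∈ absGal B := (exists_lift L B h).choose_spec.1

lemma rr_lift (h : baseGroup B L) : rr L (lift L B h) = h := (exists_lift L B h).choose_spec.2

/-- The action of the Galois group on characters. -/
noncomputable def rhoM (p : ℕ) (h𝓘 : ConjClosed 𝓘) :
    Representation (ZMod p) (baseGroup B L) (chars p 𝓘 (absGal L ⊓ absGal B)) where
  toFun h := conjLin L B h𝓘 (lift L B h) (lift_mem L B h)
  map_one' := by
    ext f x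
    show f.1 ((lift L B 1)⁻¹ * x * lift L B 1) = f.1 x
    refine chars_conj f.2 (Subgroup.mem_inf.2 ⟨?_, lift_mem L B 1⟩) x
    rw [← rr_eq_one_iff, rr_lift]
    rfl
  map_mul' h h' := by
    ext f x
    show f.1 ((lift L B (h * h'))⁻¹ * x * lift L B (h * h')) =
      f.1 ((lift L B h')⁻¹ * ((lift L B h)⁻¹ * x * lift L B h) * lift L B h')
    have e : (lift L B h')⁻¹ * ((lift L B h)⁻¹ * x * lift L B h) * lift L B h' =
        (lift L B h * lift L B h')⁻¹ * x * (lift L B h * lift L B h') := by group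
    rw [e]
    refine conj_eq f.2 (lift_mem L B _) (mul_mem (lift_mem L B h) (lift_mem L B h')) ?_ x
    rw [map_mul, rr_lift, rr_lift, rr_lift]
    rfl

variable {L B} in
lemma mem_invOn_rhoM [Fact p.Prime] (h𝓘 : ConjClosed 𝓘) (C : Subgroup (L ≃ₐ[ℚ] L))
    {f : chars p 𝓘 (absGal L ⊓ absGal B)} :
    f ∈ invOn (rhoM L B p h𝓘) C ↔
      ∀ g ∈ absGal (fix L C) ⊓ absGal B, ∀ x, f.1 (g⁻¹ * x * g) = f.1 x := by
  constructor
  · intro h g hg x
    have hgC : rr L g ∈ C := (mem_absGal_fix L C g).1 hg.1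
    have h1 := h ⟨rr L g, rr_mem_baseGroup L B g hg.2⟩ hgC
    have h2 := congrFun (congrArg Subtype.val h1) x
    rw [← h2]
    refine conj_eq f.2 hg.2 (lift_mem L B _) ?_ x
    rw [rr_lift]
  · intro h c hc
    apply Subtype.ext
    funext x
    refine h (lift L B c) (Subgroup.mem_inf.2 ⟨?_, lift_mem L B c⟩) x
    rw [mem_absGal_fix, rr_lift]
    exact hc

end action

end Pool.Agent.TH127.MU
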