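import Pool.Agent.TH127.MU.Quad4
import Pool.Agent.TH127.MU.Inertia

/-!
# A criterion with families of subgroups
-/

namespace Pool.Agent.TH127.MU

open Module NumberField

section alg

variable {p : ℕ} [Fact p.Prime] {G : Type} [Group G] [Finite G]

/-- Each nonzero finite dimensional representation of `H` over `ℤ/p` has a nonzero vector that is
fixed by `C ∩ H` for one of the subgroups `C ∈ 𝓕`. -/
def Detects (p : ℕ) [Fact p.Prime] (H : Subgroup G) (𝓕 : Set (Subgroup G)) : Prop :=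
  ∀ (F : Type) [AddCommGroup F] [Module (ZMod p) F] [Module.Finite (ZMod p) F] [Nontrivial F]
    (σ : Representation (ZMod p) H F),
    ∃ C ∈ 𝓕, ∃ v : F, v ≠ 0 ∧ ∀ h : H, (h : G) ∈ C → σ h v = v

theorem finite_of_detects {H : Subgroup G} {𝓕 : Set (Subgroup G)} (hdet : Detects p H 𝓕)
    {V : Type} [AddCommGroup V] [Module (ZMod p) V] (ρ : Representation (ZMod p) H V)
    (hfin : ∀ C ∈ 𝓕, Module.Finite (ZMod p) (V ⧸ augOn ρ C)) : Module.Finite (ZMod p) V := by
  classical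
  have := Fintype.ofFinite H
  have h𝓕fin : Finite 𝓕 := inferInstance
  have hcompl : ∀ C : 𝓕, ∃ U : Submodule (ZMod p) V, IsCompl (augOn ρ C.1) U :=
    fun C => (augOn ρ C.1).exists_isCompl
  choose U₀ hU₀ using hcompl
  have hU₀fin : ∀ C : 𝓕, Module.Finite (ZMod p) (U₀ C) := fun C => by
    have := hfin C.1 C.2
    exact Module.Finite.equiv (Submodule.quotientEquivOfIsCompl (augOn ρ C.1) (U₀ C) (hU₀ C))
  set U : Submodule (ZMod p) V := ⨆ C, U₀ C with hU
  have hUfin : Module.Finite (ZMod p) U := by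
    rw [hU]
    exact Submodule.finite_iSup _
  set U' : Submodule (ZMod p) V := ⨆ γ : H, U.map (ρ γ) with hU'
  have hU'fin : Module.Finite (ZMod p) U' := by
    rw [hU']
    have : ∀ γ : H, Module.Finite (ZMod p) (U.map (ρ γ)) := fun γ => inferInstance
    exact Submodule.finite_iSup _
  have hstab : ∀ γ : H, ∀ u ∈ U', ρ γ u ∈ U' := by
    intro γ u hu
    have h1 : U' ≤ U'.comap (ρ γ) := by
      rw [hU']
      refine iSup_le fun δ => ?_
      rintro _ ⟨w, hw, rfl⟩
      refine Submodule.mem_iSup_of_mem (γ * δ) ⟨w, hw, ?_⟩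
      rw [map_mul]
      rfl
    exact h1 hu
  have htop : ∀ C ∈ 𝓕, U' ⊔ augOn ρ C = ⊤ := by
    intro C hC
    refine top_unique ?_
    rw [← (hU₀ ⟨C, hC⟩).symm.sup_eq_top]
    refine sup_le_sup ?_ le_rfl
    intro u hu
    exact Submodule.mem_iSup_of_mem (1 : H) ⟨u, Submodule.mem_iSup_of_mem ⟨C, hC⟩ hu, by simp⟩
  by_cases hcase : U' = ⊤
  · rw [hcase] at hU'fin
    exact Module.Finite.equiv (Submodule.topEquiv (R := ZMod p) (M := V))
  exfalso
  obtain ⟨f, hf0, hf⟩ := Submodule.exists_le_ker_of_lt_top U' (lt_top_iff_ne_top.2 hcase)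
  let F : Submodule (ZMod p) (V →ₗ[ZMod p] ZMod p) :=
    Submodule.span (ZMod p) (Set.range fun γ : H => f ∘ₗ ρ γ)
  have hFfin : Module.Finite (ZMod p) F := by
    have := Module.Finite.span_of_finite (ZMod p) (Set.finite_range fun γ : H => f ∘ₗ ρ γ)
    exact this
  have hFstab : ∀ γ : H, ∀ g ∈ F, g ∘ₗ ρ γ ∈ F := by
    intro γ g hg
    have h1 : F ≤ F.comap (LinearMap.lcomp (ZMod p) (ZMod p) (ρ γ)) := by
      refine Submodule.span_le.2 ?_
      rintro _ ⟨δ, rfl⟩
      refine Submodule.subset_span ⟨δ * γ, ?_⟩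
      show f ∘ₗ ρ (δ * γ) = (f ∘ₗ ρ δ) ∘ₗ ρ γ
      rw [map_mul]
      rfl
    exact h1 hg
  have hFU : ∀ g ∈ F, U' ≤ LinearMap.ker g := by
    intro g hg
    induction hg using Submodule.span_induction with
    | mem x hx =>
      obtain ⟨δ, rfl⟩ := hx
      intro u hu
      exact hf (hstab δ u hu)
    | zero => intro u _; simp
    | add x y _ _ hx hy =>
      intro u hu
      have h1 := hx hu
      have h2 := hy hu
      rw [LinearMap.mem_ker] at h1 h2 ⊢
      rw [LinearMap.add_apply, h1, h2, add_zero]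
    | smul a x _ hx =>
      intro u hu
      have h1 := hx hu
      rw [LinearMap.mem_ker] at h1 ⊢
      rw [LinearMap.smul_apply, h1, smul_zero]
  let σ : Representation (ZMod p) H F :=
    { toFun := fun γ =>
        { toFun := fun g => ⟨g.1 ∘ₗ ρ γ⁻¹, hFstab _ _ g.2⟩
          map_add' := fun g g' => Subtype.ext (LinearMap.add_comp _ _ _)
          map_smul' := fun c g => Subtype.ext (LinearMap.smul_comp _ _ _) }
      map_one' := by
        refine LinearMap.ext fun g => Subtype.ext ?_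
        show g.1 ∘ₗ ρ (1 : H)⁻¹ = g.1
        rw [inv_one, map_one]
        rfl
      map_mul' := fun γ δ => by
        refine LinearMap.ext fun g => Subtype.ext ?_
        show g.1 ∘ₗ ρ (γ * δ)⁻¹ = (g.1 ∘ₗ ρ δ⁻¹) ∘ₗ ρ γ⁻¹
        rw [mul_inv_rev, map_mul]
        rfl }
  have hfF : f ∈ F := Submodule.subset_span ⟨1, by simp [Module.End.one_eq_id]⟩
  have hne : Nontrivial F := ⟨⟨⟨f, hfF⟩, 0, fun hh => hf0 (congrArg Subtype.val hh)⟩⟩
  obtain ⟨C, hC, g, hg0, hg⟩ := hdet F σ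
  apply hg0
  apply Subtype.ext
  have h1 : augOn ρ C ≤ LinearMap.ker g.1 := by
    refine Submodule.span_le.2 ?_
    rintro _ ⟨h, hh, v, rfl⟩
    have h2 := congrArg Subtype.val (hg h⁻¹ (by simpa using hh))
    have h3 : g.1 ∘ₗ ρ (h⁻¹)⁻¹ = g.1 := h2
    rw [inv_inv] at h3
    have h5 := LinearMap.congr_fun h3 v
    rw [LinearMap.comp_apply] at h5
    show g.1 (ρ h v - v) = 0
    rw [map_sub, h5, sub_self]
  have h2 : (⊤ : Submodule (ZMod p) V) ≤ LinearMap.ker g.1 := by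
    rw [← htop C hC]
    exact sup_le (hFU g.1 g.2) h1
  show g.1 = 0
  ext v
  exact h2 (Submodule.mem_top (x := v))

/-- Each nonzero finite dimensional representation of `G` over `ℤ/p` has a nonzero vector that is
fixed by one of the subgroups `C ∈ 𝓕`. -/
def DetectsAll (p : ℕ) [Fact p.Prime] (G : Type) [Group G] (𝓕 : Set (Subgroup G)) : Prop :=
  ∀ (F : Type) [AddCommGroup F] [Module (ZMod p) F] [Module.Finite (ZMod p) F] [Nontrivial F]
    (σ : Representation (ZMod p) G F), ∃ C ∈ 𝓕, ∃ v : F, v ≠ 0 ∧ ∀ c ∈ C, σ c v = v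

/-- Induction of representations from `H` to `G`. -/
theorem detects_of_detectsAll {𝓕 : Set (Subgroup G)} (h : DetectsAll p G 𝓕) (H : Subgroup G) :
    Detects p H {C' | ∃ C ∈ 𝓕, ∃ g : G, C' = C.map (MulAut.conj g).toMonoidHom} := by
  classical
  intro F _ _ _ _ σ
  have := Fintype.ofFinite G
  let I : Submodule (ZMod p) (G → F) :=
    { carrier := {φ | ∀ g, ∀ h : H, φ (g * h) = σ h⁻¹ (φ g)}
      zero_mem' := fun g h => (map_zero _).symm
      add_mem' := fun {φ φ'} hφ hφ' g h => by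
        rw [Pi.add_apply, Pi.add_apply, map_add, hφ, hφ']
      smul_mem' := fun c φ hφ g h => by
        rw [Pi.smul_apply, Pi.smul_apply, map_smul, hφ] }
  let τ : Representation (ZMod p) G I :=
    { toFun := fun x =>
        { toFun := fun φ => ⟨fun g => φ.1 (x⁻¹ * g), fun g h => by
            show φ.1 (x⁻¹ * (g * h)) = σ h⁻¹ (φ.1 (x⁻¹ * g))
            rw [← mul_assoc]
            exact φ.2 _ _⟩
          map_add' := fun _ _ => rfl
          map_smul' := fun _ _ => rfl }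
      map_one' := by
        refine LinearMap.ext fun φ => Subtype.ext (funext fun g => ?_)
        show φ.1 ((1 : G)⁻¹ * g) = φ.1 g
        rw [inv_one, one_mul]
      map_mul' := fun x y => by
        refine LinearMap.ext fun φ => Subtype.ext (funext fun g => ?_)
        show φ.1 ((x * y)⁻¹ * g) = φ.1 (y⁻¹ * (x⁻¹ * g))
        rw [mul_inv_rev, mul_assoc] }
  have hI : Nontrivial I := by
    obtain ⟨v, hv⟩ := exists_ne (0 : F)
    refine ⟨⟨⟨fun g => if hg : g ∈ H then σ ⟨g, hg⟩⁻¹ v else 0, fun g h => ?_⟩, 0, fun h0 => ?_⟩⟩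
    · show (if hg : g * h ∈ H then σ ⟨g * h, hg⟩⁻¹ v else 0) =
        σ h⁻¹ (if hg : g ∈ H then σ ⟨g, hg⟩⁻¹ v else 0)
      by_cases hg : g ∈ H
      · rw [dif_pos hg, dif_pos (mul_mem hg h.2)]
        have e : (⟨g * h, mul_mem hg h.2⟩ : H)⁻¹ = h⁻¹ * (⟨g, hg⟩ : H)⁻¹ := by
          apply Subtype.ext
          simp
        rw [e, map_mul]
        rfl
      · have hg' : g * h ∉ H := fun h1 => hg ((Subgroup.mul_mem_cancel_right _ h.2).1 h1)
        rw [dif_neg hg, dif_neg hg', map_zero]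
    · apply hv
      have h1 := congrFun (congrArg Subtype.val h0) 1
      have h2 : (if hg : (1 : G) ∈ H then σ ⟨1, hg⟩⁻¹ v else 0) = 0 := h1
      rw [dif_pos (one_mem H)] at h2
      have e : (⟨1, one_mem H⟩ : H)⁻¹ = 1 := by
        apply Subtype.ext
        simp
      rw [e, map_one] at h2
      exact h2
  obtain ⟨C, hC, φ, hφ0, hφ⟩ := h I τ
  obtain ⟨g, hg⟩ : ∃ g, φ.1 g ≠ 0 := by
    by_contra hcon
    push Not at hcon
    exact hφ0 (Subtype.ext (funext hcon))
  refine ⟨C.map (MulAut.conj g⁻¹).toMonoidHom, ⟨C, hC, g⁻¹, rfl⟩, φ.1 g, hg, ?_⟩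
  rintro k ⟨c, hc, hck⟩
  have hck' : g⁻¹ * c * (g⁻¹)⁻¹ = (k : G) := hck
  have h1 := congrFun (congrArg Subtype.val (hφ c⁻¹ (inv_mem hc))) g
  have h2 : φ.1 ((c⁻¹)⁻¹ * g) = φ.1 g := h1
  have e : (c⁻¹)⁻¹ * g = g * ((k : H) : G) := by
    rw [← hck']
    group
  rw [e] at h2
  have h3 := φ.2 g k
  rw [h2] at h3
  have h4 := congrArg (σ k) h3
  rw [← Module.End.mul_apply, ← map_mul, mul_inv_cancel, map_one] at h4
  exact h4

end alg

/-- Conjugate subgroups. -/
theorem finite_chars_fix_conj' {p : ℕ} [Fact p.Prime] {𝓘 : Set (Subgroup GQ)}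
    (h𝓘 : ConjClosed 𝓘) (B L : IntermediateField ℚ ℂ) [Normal ℚ B]
    [FiniteDimensional ℚ L] [Normal ℚ L] (C : Subgroup (L ≃ₐ[ℚ] L)) (g : L ≃ₐ[ℚ] L)
    (h : Module.Finite (ZMod p) (chars p 𝓘 (absGal (fix L C) ⊓ absGal B))) :
    Module.Finite (ZMod p)
      (chars p 𝓘 (absGal (fix L (C.map (MulAut.conj g).toMonoidHom)) ⊓ absGal B)) := by
  obtain ⟨σ, hσ⟩ := rr_surjective L g
  refine finite_chars_conj h𝓘 _ _ σ (fun x => ?_) h
  rw [Subgroup.mem_inf, Subgroup.mem_inf, conj_mem_absGal_iff B, mem_absGal_fix, mem_absGal_fix,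
    map_mul, map_mul, map_inv, hσ]
  have h1 : g⁻¹ * rr L x * g ∈ C ↔ rr L x ∈ C.map (MulAut.conj g).toMonoidHom := by
    constructor
    · intro hk
      refine ⟨_, hk, ?_⟩
      show g * (g⁻¹ * rr L x * g) * g⁻¹ = rr L x
      group
    · rintro ⟨k, hk, hkx⟩
      have hkx' : g * k * g⁻¹ = rr L x := hkx
      rw [← hkx']
      have e : g⁻¹ * (g * k * g⁻¹) * g = k := by group
      rw [e]
      exact hk
  rw [h1]

/-- **The criterion** with a family of subgroups. -/
theorem criterion_family (p : ℕ) [Fact p.Prime] (B : IntermediateField ℚ ℂ) [Normal ℚ B]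
    (𝓘 : Set (Subgroup GQ)) (h𝓘 : ConjClosed 𝓘) (hfew : FewRamified 𝓘 B)
    (L : IntermediateField ℚ ℂ) [hL : FiniteDimensional ℚ L] [hLn : Normal ℚ L]
    (𝓕 : Set (Subgroup (L ≃ₐ[ℚ] L))) (h𝓕 : DetectsAll p (L ≃ₐ[ℚ] L) 𝓕) :
    FewChars p 𝓘 B L ↔ ∀ C ∈ 𝓕, FewChars p 𝓘 B (fix L C) := by
  have hBalg : Algebra.IsAlgebraic ℚ B := Normal.toIsAlgebraic
  simp only [fewChars_iff]
  have hP := genusTheory_chars (p := p) (B := B) h𝓘 hfew
  constructor
  · intro h C _
    exact P_of_le hP L h _ (fix_le C)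
  · intro h
    obtain ⟨V, _, _, ρ, hV⟩ := hP L hL hLn
    have hVfin : Module.Finite (ZMod p) V := by
      refine finite_of_detects (detects_of_detectsAll h𝓕 (baseGroup B L)) ρ ?_
      rintro _ ⟨C, hC, g, rfl⟩
      exact (hV _).1 (finite_chars_fix_conj' h𝓘 B L C g (h C hC))
    have h1 := (hV (IntermediateField.restrict (le_refl L)).fixingSubgroup).2 inferInstance
    rwa [← eq_fix (le_refl L)] at h1

end Pool.Agent.TH127.MU
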