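import Mathlib.NumberTheory.NumberField.CMField
import Mathlib.FieldTheory.Galois.Basic
import Mathlib.RepresentationTheory.Basic
import Mathlib.Algebra.Field.ZMod

/-!
# Number fields, coinvariants, genus theory: definitions
-/

namespace Pool.Agent.TH127.MU

open Module NumberField

/-- The subspace generated by the vectors `ρ(h) v - v` with `h` in the subgroup `C`. -/
def augOn {p : ℕ} {V : Type*} [AddCommGroup V] [Module (ZMod p) V] {G : Type*} [Group G]
    {H : Subgroup G} (ρ : Representation (ZMod p) H V) (C : Subgroup G) : Submodule (ZMod p) V :=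
  Submodule.span (ZMod p) {x | ∃ h : H, (h : G) ∈ C ∧ ∃ v, x = ρ h v - v}

/-- The automorphisms of `L` that fix the elements of `B ∩ L`. -/
noncomputable def baseGroup (B L : IntermediateField ℚ ℂ) : Subgroup (L ≃ₐ[ℚ] L) where
  carrier := {σ | ∀ x : L, (x : ℂ) ∈ B → σ x = x}
  one_mem' := fun _ _ => rfl
  mul_mem' := fun {σ τ} hσ hτ x hx => by
    show σ (τ x) = x
    rw [hτ x hx, hσ x hx]
  inv_mem' := fun {σ} hσ x hx => by
    show σ.symm x = x
    rw [AlgEquiv.symm_apply_eq]
    exact (hσ x hx).symm

/-- The fixed field of the group `C` of automorphisms of `L`, as a subfield of `ℂ`. -/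
noncomputable def fix (L : IntermediateField ℚ ℂ) (C : Subgroup (L ≃ₐ[ℚ] L)) : IntermediateField ℚ ℂ :=
  IntermediateField.lift (IntermediateField.fixedField C)

/-- The property `P` of number fields (subfields of `ℂ`) is described by coinvariants: for each
number field `L` which is Galois over `ℚ` there is a vector space `V` over `𝔽_p` with an action of
the group `H` of the automorphisms of `L` over `B ∩ L`, such that for each group `C` of
automorphisms of `L` the fixed field of `C` has the property `P` if and only if the coinvariants of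
`V` under `C ∩ H` are finite dimensional. -/
def GenusTheory (p : ℕ) (B : IntermediateField ℚ ℂ) (P : IntermediateField ℚ ℂ → Prop) : Prop :=
  ∀ L : IntermediateField ℚ ℂ, FiniteDimensional ℚ L → Normal ℚ L →
    ∃ (V : Type) (_ : AddCommGroup V) (_ : Module (ZMod p) V)
      (ρ : Representation (ZMod p) (baseGroup B L) V),
      ∀ C : Subgroup (L ≃ₐ[ℚ] L), P (fix L C) ↔ Module.Finite (ZMod p) (V ⧸ augOn ρ C)

end Pool.Agent.TH127.MU
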