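import Pool.Agent.TH127.MU.Alg
import Mathlib.FieldTheory.IsAlgClosed.Basic
import Mathlib.GroupTheory.Sylow

/-!
# Complex conjugation in the Galois groups of number fields
-/

namespace Pool.Agent.TH127.MU

open Module NumberField ComplexConjugate

variable {L B : IntermediateField ℚ ℂ}

/-- Complex conjugation as an automorphism of the normal number field `L`. -/
noncomputable def cc (L : IntermediateField ℚ ℂ) [Normal ℚ L] : L ≃ₐ[ℚ] L :=
  (Complex.conjAe.restrictScalars ℚ).restrictNormal L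

lemma cc_apply [Normal ℚ L] (x : L) : ((cc L x : L) : ℂ) = conj (x : ℂ) :=
  AlgEquiv.restrictNormal_commutes (Complex.conjAe.restrictScalars ℚ) L x

lemma cc_cc [Normal ℚ L] (x : L) : cc L (cc L x) = x := by
  apply Subtype.ext
  rw [cc_apply, cc_apply, Complex.conj_conj]

lemma mem_fix {C : Subgroup (L ≃ₐ[ℚ] L)} {x : L} :
    (x : ℂ) ∈ fix L C ↔ ∀ σ ∈ C, σ x = x :=
  (IntermediateField.mem_lift x).trans (IntermediateField.mem_fixedField_iff _ _)

lemma fix_le (C : Subgroup (L ≃ₐ[ℚ] L)) : fix L C ≤ L := IntermediateField.lift_le _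

/-- The elements of `B ∩ L` and their conjugates are real if `B` is totally real. -/
lemma conj_apply_of_mem [Algebra.IsAlgebraic ℚ B] [IsTotallyReal B] (g : L ≃ₐ[ℚ] L) {x : L}
    (hx : (x : ℂ) ∈ B) : conj ((g x : L) : ℂ) = (g x : L) := by
  let E : IntermediateField ℚ ℂ := B ⊓ L
  let _ : Algebra E B := (IntermediateField.inclusion (inf_le_left : E ≤ B)).toRingHom.toAlgebra
  have : IsScalarTower ℚ E B := IsScalarTower.of_algebraMap_eq fun _ => rfl
  have : Algebra.IsAlgebraic E B := Algebra.IsAlgebraic.tower_top (K := ℚ) E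
  have : IsTotallyReal E := IsTotallyReal.of_algebra E B
  let φ : E →+* ℂ := (L.val.toRingHom.comp (g : L →+* L)).comp
    (IntermediateField.inclusion (inf_le_right : E ≤ L)).toRingHom
  have h1 := IsTotallyReal.complexEmbedding_isReal φ
  have h2 := RingHom.congr_fun h1 ⟨(x : ℂ), hx, x.2⟩
  exact h2

/-- The conjugates of complex conjugation in the Galois group. -/
noncomputable def cg [Algebra.IsAlgebraic ℚ B] [IsTotallyReal B] [Normal ℚ L] (g : L ≃ₐ[ℚ] L) :
    baseGroup B L :=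
  ⟨g * cc L * g⁻¹, fun x hx => by
    show g (cc L (g.symm x)) = x
    have h1 : cc L (g.symm x) = g.symm x := by
      apply Subtype.ext
      rw [cc_apply]
      exact conj_apply_of_mem (B := B) g.symm hx
    rw [h1, AlgEquiv.apply_symm_apply]⟩

variable [Algebra.IsAlgebraic ℚ B] [IsTotallyReal B] [Normal ℚ L]

lemma cc_mul_cc : cc L * cc L = 1 := AlgEquiv.ext fun x => cc_cc x

lemma cg_mul_cg (g : L ≃ₐ[ℚ] L) : cg (B := B) g * cg g = 1 := by
  apply Subtype.ext
  show g * cc L * g⁻¹ * (g * cc L * g⁻¹) = 1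
  calc g * cc L * g⁻¹ * (g * cc L * g⁻¹) = g * (cc L * cc L) * g⁻¹ := by group
    _ = 1 := by rw [cc_mul_cc]; group

lemma conj_cg (h : baseGroup B L) (g : L ≃ₐ[ℚ] L) :
    h * cg (B := B) g * h⁻¹ = cg ((h : L ≃ₐ[ℚ] L) * g) := by
  apply Subtype.ext
  show (h : L ≃ₐ[ℚ] L) * (g * cc L * g⁻¹) * (h : L ≃ₐ[ℚ] L)⁻¹ =
    ((h : L ≃ₐ[ℚ] L) * g) * cc L * ((h : L ≃ₐ[ℚ] L) * g)⁻¹
  group

/-- The fixed field of a conjugate of complex conjugation has a real embedding. -/
lemma real_embedding (g : L ≃ₐ[ℚ] L) :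
    Nonempty (fix L (Subgroup.zpowers (g * cc L * g⁻¹)) →+* ℝ) := by
  let K := fix L (Subgroup.zpowers (g * cc L * g⁻¹))
  let f : K →+* ℂ := (L.val.toRingHom.comp (g.symm : L →+* L)).comp
    (IntermediateField.inclusion (fix_le (L := L) (Subgroup.zpowers (g * cc L * g⁻¹)))).toRingHom
  have hf : ComplexEmbedding.IsReal f := by
    refine RingHom.ext fun x => ?_
    set y : L := ⟨x.1, fix_le _ x.2⟩ with hy
    have h1 : (y : ℂ) ∈ fix L (Subgroup.zpowers (g * cc L * g⁻¹)) := x.2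
    have h2 := mem_fix.1 h1 _ (Subgroup.mem_zpowers _)
    have h3 : g (cc L (g.symm y)) = y := h2
    show conj ((g.symm y : L) : ℂ) = ((g.symm y : L) : ℂ)
    rw [← cc_apply]
    congr 1
    rw [AlgEquiv.eq_symm_apply]
    exact h3
  exact ⟨hf.embedding⟩

end Pool.Agent.TH127.MU
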