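import Pool.Agent.TH127.MU.CharRep

/-!
# Genus theory for characters
-/

namespace Pool.Agent.TH127.MU

open Module

/-- The automorphisms over `L` and `B`. -/
noncomputable abbrev NN (L B : IntermediateField ℚ ℂ) : Subgroup GQ := absGal L ⊓ absGal B

/-- The automorphisms over `B` and the fixed field of `C`. -/
noncomputable abbrev UU (L B : IntermediateField ℚ ℂ) (C : Subgroup (L ≃ₐ[ℚ] L)) : Subgroup GQ :=
  absGal (fix L C) ⊓ absGal B

variable {p : ℕ} [Fact p.Prime] {𝓘 : Set (Subgroup GQ)} {L B : IntermediateField ℚ ℂ}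
  [FiniteDimensional ℚ L] [Normal ℚ L]

lemma NN_le_UU (C : Subgroup (L ≃ₐ[ℚ] L)) : NN L B ≤ UU L B C :=
  inf_le_inf_right _ (absGal_mono (fix_le C))

lemma mem_NN_of {g : GQ} (hg : g ∈ absGal B) (h : rr L g = 1) : g ∈ NN L B :=
  Subgroup.mem_inf.2 ⟨(rr_eq_one_iff L g).1 h, hg⟩

section ext

variable {C : Subgroup (L ≃ₐ[ℚ] L)} {f : GQ → ZMod p} (hf : f ∈ chars p 𝓘 (NN L B))
  (hinv : ∀ g ∈ UU L B C, ∀ x, f (g⁻¹ * x * g) = f x) {s : (L ≃ₐ[ℚ] L) → GQ}
  (hs : ∀ c, s c ∈ UU L B C) (hrs : ∀ g ∈ UU L B C, rr L (s (rr L g)) = rr L g)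
  (hcoc : ∀ a b, f (s a * s b * (s (a * b))⁻¹) = 0)

include hs hrs

lemma ext_N {g : GQ} (hg : g ∈ UU L B C) : g * (s (rr L g))⁻¹ ∈ NN L B :=
  mem_NN_of (mul_mem hg.2 (inv_mem (hs _).2)) (by
    rw [map_mul, map_inv, hrs g hg, mul_inv_cancel])

include hf hinv hcoc

lemma ext_mul {g h : GQ} (hg : g ∈ UU L B C) (hh : h ∈ UU L B C) :
    f (g * h * (s (rr L (g * h)))⁻¹) = f (g * (s (rr L g))⁻¹) + f (h * (s (rr L h))⁻¹) := by
  set a := rr L g with ha
  set b := rr L h with hb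
  have hu := ext_N hs hrs hg
  have hv := ext_N hs hrs hh
  rw [← ha] at hu
  rw [← hb] at hv
  have hab : rr L (g * h) = a * b := map_mul _ _ _
  rw [hab]
  have hw : s a * s b * (s (a * b))⁻¹ ∈ NN L B := by
    refine mem_NN_of (mul_mem (mul_mem (hs _).2 (hs _).2) (inv_mem (hs _).2)) ?_
    rw [map_mul, map_mul, map_inv]
    have h1 : rr L (s a) = a := hrs g hg
    have h2 : rr L (s b) = b := hrs h hh
    have h3 : rr L (s (a * b)) = a * b := by
      have := hrs (g * h) (mul_mem hg hh)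
      rwa [hab] at this
    rw [h1, h2, h3, mul_inv_cancel]
  have hv' : s a * (h * (s b)⁻¹) * (s a)⁻¹ ∈ NN L B := by
    have h1 := (conj_mem_N L B (inv_mem (hs a).2) (h * (s b)⁻¹)).2 hv
    rwa [inv_inv] at h1
  have e : g * h * (s (a * b))⁻¹ =
      (g * (s a)⁻¹) * ((s a * (h * (s b)⁻¹) * (s a)⁻¹) * (s a * s b * (s (a * b))⁻¹)) := by group
  rw [e, chars_mul hf hu (mul_mem hv' hw), chars_mul hf hv' hw, hcoc, add_zero]
  congr 1
  have h1 := hinv (s a)⁻¹ (inv_mem (hs a)) (h * (s b)⁻¹)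
  rwa [inv_inv] at h1

lemma ext_of_mem {g : GQ} (hg : g ∈ NN L B) : f (g * (s (rr L g))⁻¹) = f g := by
  have h1 : rr L g = 1 := (rr_eq_one_iff L g).2 hg.1
  have hs1 : s 1 ∈ NN L B := by
    refine mem_NN_of (hs 1).2 ?_
    have h2 := hrs 1 (one_mem _)
    rwa [map_one] at h2
  have h3 : f (s 1) = 0 := by
    have h4 := hcoc 1 1
    rwa [mul_one, mul_inv_cancel_right] at h4
  rw [h1, chars_mul hf hg (inv_mem hs1), chars_inv hf hs1, h3, neg_zero, add_zero]

end ext

open Classical in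
/-- A lift of `c` to `U`. -/
noncomputable def sec (U : Subgroup GQ) (L : IntermediateField ℚ ℂ) [FiniteDimensional ℚ L]
    [Normal ℚ L] (c : L ≃ₐ[ℚ] L) : GQ :=
  if h : ∃ g ∈ U, rr L g = c then h.choose else 1

lemma sec_mem (U : Subgroup GQ) (c : L ≃ₐ[ℚ] L) : sec U L c ∈ U := by
  unfold sec
  split_ifs with h
  · exact h.choose_spec.1
  · exact one_mem U

lemma rr_sec (U : Subgroup GQ) {g : GQ} (hg : g ∈ U) : rr L (sec U L (rr L g)) = rr L g := by
  have h : ∃ g' ∈ U, rr L g' = rr L g := ⟨g, hg, rfl⟩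
  unfold sec
  rw [dif_pos h]
  exact h.choose_spec.2

variable [Algebra.IsAlgebraic ℚ B]

theorem finite_of_inv (h𝓘 : ConjClosed 𝓘) (C : Subgroup (L ≃ₐ[ℚ] L))
    (h : Module.Finite (ZMod p) (invOn (rhoM L B p h𝓘) C)) :
    Module.Finite (ZMod p) (chars p 𝓘 (UU L B C)) := by
  classical
  let res : chars p 𝓘 (UU L B C) →ₗ[ZMod p] invOn (rhoM L B p h𝓘) C :=
    { toFun := fun f => ⟨⟨fun x => if x ∈ NN L B then f.1 x else 0, by
        obtain ⟨h1, h2, ⟨K, hK, hKn, h3⟩, h4⟩ := f.2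
        refine ⟨fun g hg => if_neg hg, fun g hg h hh => ?_,
          ⟨K, hK, hKn, fun g hg hgK => ?_⟩, fun I hI g hg hgI => ?_⟩
        · show (if g * h ∈ NN L B then f.1 (g * h) else 0) =
            (if g ∈ NN L B then f.1 g else 0) + (if h ∈ NN L B then f.1 h else 0)
          rw [if_pos (mul_mem hg hh), if_pos hg, if_pos hh]
          exact h2 g (NN_le_UU C hg) h (NN_le_UU C hh)
        · show (if g ∈ NN L B then f.1 g else 0) = 0
          rw [if_pos hg]
          exact h3 g (NN_le_UU C hg) hgK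
        · show (if g ∈ NN L B then f.1 g else 0) = 0
          rw [if_pos hg]
          exact h4 I hI g (NN_le_UU C hg) hgI⟩, (mem_invOn_rhoM h𝓘 C).2 fun g hg x => by
        show (if g⁻¹ * x * g ∈ NN L B then f.1 (g⁻¹ * x * g) else 0) =
          if x ∈ NN L B then f.1 x else 0
        by_cases hx : x ∈ NN L B
        · rw [if_pos hx, if_pos ((conj_mem_N L B hg.2 x).2 hx), chars_conj f.2 hg x]
        · rw [if_neg hx, if_neg fun hx' => hx ((conj_mem_N L B hg.2 x).1 hx')]⟩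
      map_add' := fun f f' => by
        apply Subtype.ext
        apply Subtype.ext
        funext x
        show (if x ∈ NN L B then f.1 x + f'.1 x else 0) =
          (if x ∈ NN L B then f.1 x else 0) + (if x ∈ NN L B then f'.1 x else 0)
        split_ifs <;> simp
      map_smul' := fun c f => by
        apply Subtype.ext
        apply Subtype.ext
        funext x
        show (if x ∈ NN L B then c • f.1 x else 0) = c • (if x ∈ NN L B then f.1 x else 0)
        split_ifs <;> simp }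
  let Ψ : chars p 𝓘 (UU L B C) →ₗ[ZMod p] invOn (rhoM L B p h𝓘) C × ((L ≃ₐ[ℚ] L) → ZMod p) :=
    res.prod (LinearMap.pi fun c =>
      LinearMap.proj (sec (UU L B C) L c) ∘ₗ (chars p 𝓘 (UU L B C)).subtype)
  refine Module.Finite.of_injective Ψ ?_
  rw [injective_iff_map_eq_zero]
  intro f hf
  have h1 : ∀ x ∈ NN L B, f.1 x = 0 := by
    intro x hx
    have h2 := congrFun (congrArg (fun y => y.1.1.1) hf) x
    have h3 : (if x ∈ NN L B then f.1 x else 0) = 0 := h2
    rwa [if_pos hx] at h3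
  have h2 : ∀ c, f.1 (sec (UU L B C) L c) = 0 := by
    intro c
    exact congrFun (congrArg (fun y => y.2) hf) c
  apply Subtype.ext
  funext g
  show f.1 g = 0
  by_cases hg : g ∈ UU L B C
  · have hg' := ext_N (fun c => sec_mem _ c) (fun g hg => rr_sec _ hg) hg
    have e : g = (g * (sec (UU L B C) L (rr L g))⁻¹) * sec (UU L B C) L (rr L g) := by group
    rw [e, chars_mul f.2 (NN_le_UU C hg') (sec_mem _ _), h1 _ hg', h2, add_zero]
  · exact f.2.1 g hg

end Pool.Agent.TH127.MU
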