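import Pool.Agent.TH127.MU.Genus

/-!
# Genus theory for characters, continued
-/

namespace Pool.Agent.TH127.MU

open Module

variable {p : ℕ} [Fact p.Prime] {𝓘 : Set (Subgroup GQ)} {L B : IntermediateField ℚ ℂ}
  [FiniteDimensional ℚ L] [Normal ℚ L] [Algebra.IsAlgebraic ℚ B]

/-- The evaluation at an element. -/
def evalAt (h𝓘 : ConjClosed 𝓘) (C : Subgroup (L ≃ₐ[ℚ] L)) (g : GQ) :
    invOn (rhoM L B p h𝓘) C →ₗ[ZMod p] ZMod p where
  toFun f := f.1.1 g
  map_add' _ _ := rfl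
  map_smul' _ _ := rfl

theorem inv_of_finite (h𝓘 : ConjClosed 𝓘) (hfew : FewRamified 𝓘 B) (C : Subgroup (L ≃ₐ[ℚ] L))
    (h : Module.Finite (ZMod p) (chars p 𝓘 (UU L B C))) :
    Module.Finite (ZMod p) (invOn (rhoM L B p h𝓘) C) := by
  classical
  obtain ⟨𝓢, h𝓢, h𝓢𝓘, hram⟩ := hfew L inferInstance inferInstance
  have := h𝓢.to_subtype
  let ι := 𝓢 × baseGroup B L
  let J : ι → Subgroup GQ := fun i =>
    (i.1 : Subgroup GQ).map (MulAut.conj (lift L B i.2)).toMonoidHom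
  have hJ : ∀ i, J i ∈ 𝓘 := fun i => h𝓘 _ (h𝓢𝓘 i.1.2) _
  have hram' : ∀ I ∈ 𝓘, I ⊓ absGal B ≤ absGal L ∨
      ∃ i : ι, ∃ n ∈ NN L B, ∀ g ∈ I, n⁻¹ * g * n ∈ J i := by
    intro I hI
    rcases hram I hI with h1 | ⟨J₀, hJ₀, σ, hσ, rfl⟩
    · exact Or.inl h1
    · right
      let hh : baseGroup B L := ⟨rr L σ, rr_mem_baseGroup L B σ hσ⟩
      refine ⟨(⟨J₀, hJ₀⟩, hh), σ * (lift L B hh)⁻¹, ?_, ?_⟩
      · refine mem_NN_of (mul_mem hσ (inv_mem (lift_mem L B hh))) ?_
        rw [map_mul, map_inv, rr_lift, mul_inv_cancel]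
      · rintro _ ⟨j, hj, rfl⟩
        refine ⟨j, hj, ?_⟩
        show lift L B hh * j * (lift L B hh)⁻¹ =
          (σ * (lift L B hh)⁻¹)⁻¹ * (σ * j * σ⁻¹) * (σ * (lift L B hh)⁻¹)
        group
  let s : (L ≃ₐ[ℚ] L) → GQ := sec (UU L B C) L
  have hs : ∀ c, s c ∈ UU L B C := fun c => sec_mem _ c
  have hrs : ∀ g ∈ UU L B C, rr L (s (rr L g)) = rr L g := fun g hg => rr_sec _ hg
  let t : ι → (L ≃ₐ[ℚ] L) → GQ := fun i c =>
    if h : ∃ g ∈ UU L B C, g ∈ J i ∧ rr L g = c then h.choose else 1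
  have ht : ∀ i, ∀ g ∈ UU L B C, g ∈ J i →
      t i (rr L g) ∈ UU L B C ∧ t i (rr L g) ∈ J i ∧ rr L (t i (rr L g)) = rr L g := by
    intro i g hg hgJ
    have h1 : ∃ g' ∈ UU L B C, g' ∈ J i ∧ rr L g' = rr L g := ⟨g, hg, hgJ, rfl⟩
    have h2 : t i (rr L g) = h1.choose := dif_pos h1
    rw [h2]
    exact h1.choose_spec
  let Φ : invOn (rhoM L B p h𝓘) C →ₗ[ZMod p]
      (((L ≃ₐ[ℚ] L) × (L ≃ₐ[ℚ] L)) → ZMod p) × ((ι × (L ≃ₐ[ℚ] L)) → ZMod p) :=
    (LinearMap.pi fun ab => evalAt h𝓘 C (s ab.1 * s ab.2 * (s (ab.1 * ab.2))⁻¹)).prod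
      (LinearMap.pi fun ic => evalAt h𝓘 C (t ic.1 ic.2 * (s ic.2)⁻¹))
  have hΦ1 : ∀ f : LinearMap.ker Φ, ∀ a b, f.1.1.1 (s a * s b * (s (a * b))⁻¹) = 0 := by
    intro f a b
    exact congrFun (congrArg Prod.fst (LinearMap.mem_ker.1 f.2)) (a, b)
  have hΦ2 : ∀ f : LinearMap.ker Φ, ∀ i c, f.1.1.1 (t i c * (s c)⁻¹) = 0 := by
    intro f i c
    exact congrFun (congrArg Prod.snd (LinearMap.mem_ker.1 f.2)) (i, c)
  have hinv : ∀ f : LinearMap.ker Φ, ∀ g ∈ UU L B C, ∀ x, f.1.1.1 (g⁻¹ * x * g) = f.1.1.1 x :=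
    fun f => (mem_invOn_rhoM h𝓘 C).1 f.1.2
  have hmul : ∀ f : LinearMap.ker Φ, ∀ g ∈ UU L B C, ∀ h ∈ UU L B C,
      f.1.1.1 (g * h * (s (rr L (g * h)))⁻¹) =
        f.1.1.1 (g * (s (rr L g))⁻¹) + f.1.1.1 (h * (s (rr L h))⁻¹) :=
    fun f g hg h hh => ext_mul f.1.1.2 (hinv f) hs hrs (hΦ1 f) hg hh
  have hres : ∀ f : LinearMap.ker Φ, ∀ g ∈ NN L B, f.1.1.1 (g * (s (rr L g))⁻¹) = f.1.1.1 g :=
    fun f g hg => ext_of_mem f.1.1.2 (hinv f) hs hrs (hΦ1 f) hg
  let E : LinearMap.ker Φ →ₗ[ZMod p] chars p 𝓘 (UU L B C) :=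
    { toFun := fun f => ⟨fun g => if g ∈ UU L B C then f.1.1.1 (g * (s (rr L g))⁻¹) else 0, by
        obtain ⟨h1, h2, ⟨K, hK, hKn, h3⟩, h4⟩ := f.1.1.2
        have hmul' : ∀ g ∈ UU L B C, ∀ h ∈ UU L B C,
            (if g * h ∈ UU L B C then f.1.1.1 (g * h * (s (rr L (g * h)))⁻¹) else 0) =
            (if g ∈ UU L B C then f.1.1.1 (g * (s (rr L g))⁻¹) else 0) +
            (if h ∈ UU L B C then f.1.1.1 (h * (s (rr L h))⁻¹) else 0) := by
          intro g hg h hh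
          rw [if_pos (mul_mem hg hh), if_pos hg, if_pos hh]
          exact hmul f g hg h hh
        refine ⟨fun g hg => if_neg hg, hmul', ⟨K ⊔ L, inferInstance,
          normal_sup_rat K L hKn inferInstance, fun g hg hgK => ?_⟩, fun I hI g hg hgI => ?_⟩
        · have hgN : g ∈ NN L B := Subgroup.mem_inf.2 ⟨absGal_mono le_sup_right hgK, hg.2⟩
          show (if g ∈ UU L B C then f.1.1.1 (g * (s (rr L g))⁻¹) else 0) = 0
          rw [if_pos hg, hres f g hgN]
          exact h3 g hgN (absGal_mono le_sup_left hgK)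
        · show (if g ∈ UU L B C then f.1.1.1 (g * (s (rr L g))⁻¹) else 0) = 0
          rw [if_pos hg]
          rcases hram' I hI with h5 | ⟨i, n, hn, h5⟩
          · have hgN : g ∈ NN L B := Subgroup.mem_inf.2 ⟨h5 ⟨hgI, hg.2⟩, hg.2⟩
            rw [hres f g hgN]
            exact h4 I hI g hgN hgI
          · have hnU : n ∈ UU L B C := NN_le_UU C hn
            set j := n⁻¹ * g * n with hj
            have hjU : j ∈ UU L B C := mul_mem (mul_mem (inv_mem hnU) hg) hnU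
            have hjJ : j ∈ J i := h5 g hgI
            have e : g = n * (j * n⁻¹) := by rw [hj]; group
            have h6 : f.1.1.1 (n⁻¹ * (s (rr L n⁻¹))⁻¹) = - f.1.1.1 n := by
              rw [hres f n⁻¹ (inv_mem hn), chars_inv f.1.1.2 hn]
            have h7 : f.1.1.1 (g * (s (rr L g))⁻¹) = f.1.1.1 (j * (s (rr L j))⁻¹) := by
              rw [e, hmul f n hnU (j * n⁻¹) (mul_mem hjU (inv_mem hnU)),
                hmul f j hjU n⁻¹ (inv_mem hnU), hres f n hn, h6]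
              abel
            rw [h7]
            obtain ⟨ht1, ht2, ht3⟩ := ht i j hjU hjJ
            set c := rr L j with hc
            have hjt : j * (t i c)⁻¹ ∈ NN L B := by
              refine mem_NN_of (mul_mem hjU.2 (inv_mem ht1.2)) ?_
              rw [map_mul, map_inv, ht3, mul_inv_cancel]
            have hts : t i c * (s c)⁻¹ ∈ NN L B := by
              refine mem_NN_of (mul_mem ht1.2 (inv_mem (hs c).2)) ?_
              have h8 := hrs j hjU
              rw [map_mul, map_inv, ht3, h8, mul_inv_cancel]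
            have e2 : j * (s c)⁻¹ = (j * (t i c)⁻¹) * (t i c * (s c)⁻¹) := by group
            rw [e2, chars_mul f.1.1.2 hjt hts, hΦ2 f i c, add_zero]
            exact h4 (J i) (hJ i) _ hjt (mul_mem hjJ (inv_mem ht2))⟩
      map_add' := fun f f' => by
        apply Subtype.ext
        funext x
        show (if x ∈ UU L B C then f.1.1.1 (x * (s (rr L x))⁻¹) + f'.1.1.1 (x * (s (rr L x))⁻¹)
            else 0) =
          (if x ∈ UU L B C then f.1.1.1 (x * (s (rr L x))⁻¹) else 0) +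
          (if x ∈ UU L B C then f'.1.1.1 (x * (s (rr L x))⁻¹) else 0)
        split_ifs <;> simp
      map_smul' := fun c f => by
        apply Subtype.ext
        funext x
        show (if x ∈ UU L B C then c • f.1.1.1 (x * (s (rr L x))⁻¹) else 0) =
          c • (if x ∈ UU L B C then f.1.1.1 (x * (s (rr L x))⁻¹) else 0)
        split_ifs <;> simp }
  have hE : Function.Injective E := by
    rw [injective_iff_map_eq_zero]
    intro f hf
    apply Subtype.ext
    apply Subtype.ext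
    apply Subtype.ext
    funext g
    show f.1.1.1 g = 0
    by_cases hg : g ∈ NN L B
    · have h1 := congrFun (congrArg Subtype.val hf) g
      have h2 : (if g ∈ UU L B C then f.1.1.1 (g * (s (rr L g))⁻¹) else 0) = 0 := h1
      rwa [if_pos (NN_le_UU C hg), hres f g hg] at h2
    · exact f.1.1.2.1 g hg
  have hker : Module.Finite (ZMod p) (LinearMap.ker Φ) := Module.Finite.of_injective E hE
  have hquot : Module.Finite (ZMod p) (invOn (rhoM L B p h𝓘) C ⧸ LinearMap.ker Φ) :=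
    Module.Finite.equiv (LinearMap.quotKerEquivRange Φ).symm
  exact Module.Finite.of_submodule_quotient (LinearMap.ker Φ)

/-- **Genus theory**: the characters over the fields `F B` are described by coinvariants. -/
theorem genusTheory_chars (h𝓘 : ConjClosed 𝓘) (hfew : FewRamified 𝓘 B) :
    GenusTheory p B fun F => Module.Finite (ZMod p) (chars p 𝓘 (absGal F ⊓ absGal B)) := by
  intro L hL hLn
  refine ⟨Dual (ZMod p) (chars p 𝓘 (absGal L ⊓ absGal B)), inferInstance, inferInstance,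
    (rhoM L B p h𝓘).dual, fun C => ?_⟩
  rw [finite_dual_coinv]
  exact ⟨inv_of_finite h𝓘 hfew C, finite_of_inv h𝓘 C⟩

end Pool.Agent.TH127.MU
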