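import Pool.Agent.TH127.MU.Field
import Pool.Agent.TH127.MU.CM

/-!
# Real places and CM fields suffice
-/

namespace Pool.Agent.TH127.MU

open Module NumberField ComplexConjugate

variable {p : ℕ} [Fact p.Prime] {L B : IntermediateField ℚ ℂ}

section group

variable [Algebra.IsAlgebraic ℚ B] [IsTotallyReal B] [Normal ℚ L]

/-- The group generated by the products of two conjugates of complex conjugation. -/
noncomputable def MM (B L : IntermediateField ℚ ℂ) [Algebra.IsAlgebraic ℚ B] [IsTotallyReal B]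
    [Normal ℚ L] : Subgroup (L ≃ₐ[ℚ] L) :=
  Subgroup.closure {x | ∃ g g' : L ≃ₐ[ℚ] L, x = cg (B := B) g * cg (B := B) g'}

lemma MM_le : MM B L ≤ baseGroup B L := by
  refine (Subgroup.closure_le _).2 ?_
  rintro _ ⟨g, g', rfl⟩
  exact (cg (B := B) g * cg (B := B) g').2

lemma MM_normal : (MM B L).Normal := by
  refine ⟨fun n hn k => ?_⟩
  induction hn using Subgroup.closure_induction with
  | mem x hx =>
    obtain ⟨g, g', rfl⟩ := hx
    refine Subgroup.subset_closure ⟨k * g, k * g', ?_⟩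
    show k * ((g * cc L * g⁻¹) * (g' * cc L * g'⁻¹)) * k⁻¹ =
      ((k * g) * cc L * (k * g)⁻¹) * ((k * g') * cc L * (k * g')⁻¹)
    group
  | one => rw [mul_one, mul_inv_cancel]; exact one_mem _
  | mul x y _ _ hx hy =>
    have e : k * (x * y) * k⁻¹ = (k * x * k⁻¹) * (k * y * k⁻¹) := by group
    rw [e]
    exact mul_mem hx hy
  | inv x _ hx =>
    have e : k * x⁻¹ * k⁻¹ = (k * x * k⁻¹)⁻¹ := by group
    rw [e]
    exact inv_mem hx

/-- Conjugates of `c` by elements of the group agree with `c` modulo `MM`. -/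
lemma conj_mem (g : L ≃ₐ[ℚ] L) : g⁻¹ * cc L * g * cc L ∈ MM B L := by
  refine Subgroup.subset_closure ⟨g⁻¹, 1, ?_⟩
  show g⁻¹ * cc L * g * cc L = (g⁻¹ * cc L * g⁻¹⁻¹) * (1 * cc L * 1⁻¹)
  group

end group

/-- The degree of a fixed field. -/
lemma finrank_fix [FiniteDimensional ℚ L] [Normal ℚ L] (D : Subgroup (L ≃ₐ[ℚ] L)) :
    Module.finrank ℚ (fix L D) = D.index := by
  have h1 : Module.finrank ℚ (fix L D) = Module.finrank ℚ (IntermediateField.fixedField D) :=
    (IntermediateField.liftAlgEquiv (IntermediateField.fixedField D)).toLinearEquiv.finrank_eq.symm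
  have hG : IsGalois ℚ L := ⟨⟩
  have h2 := Module.finrank_mul_finrank ℚ (IntermediateField.fixedField D) L
  have h3 := IntermediateField.finrank_fixedField_eq_card D
  have h4 := IsGalois.card_aut_eq_finrank ℚ L
  have h5 := D.index_mul_card
  have h6 : Nat.card D ≠ 0 := Nat.card_pos.ne'
  rw [h1]
  apply Nat.eq_of_mul_eq_mul_right (Nat.pos_of_ne_zero h6)
  rw [h5, ← h3, h4]
  exact h2

/-- The fixed field of a group `D` containing `MM` but not complex conjugation is a CM field. -/
lemma isCMField_fix [Algebra.IsAlgebraic ℚ B] [IsTotallyReal B] [FiniteDimensional ℚ L]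
    [Normal ℚ L] (D : Subgroup (L ≃ₐ[ℚ] L)) (hD : MM B L ≤ D) (hc : cc L ∉ D) :
    IsCMField (fix L D) := by
  have : FiniteDimensional ℚ (fix L D) :=
    (IntermediateField.liftAlgEquiv (IntermediateField.fixedField D)).toLinearEquiv.finiteDimensional
  have : NumberField (fix L D) := ⟨⟩
  have hstab : ∀ x : L, (x : ℂ) ∈ fix L D → ((cc L x : L) : ℂ) ∈ fix L D := by
    intro x hx
    rw [mem_fix] at hx ⊢
    intro d hd
    have h1 : d * (d⁻¹ * cc L * d * cc L) ∈ D := mul_mem hd (hD (conj_mem d))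
    have h2 := hx _ h1
    have h3 : cc L (d (cc L x)) = x := by
      have e : (d * (d⁻¹ * cc L * d * cc L)) x = cc L (d (cc L x)) := by
        have e' : d * (d⁻¹ * cc L * d * cc L) = cc L * d * cc L := by group
        rw [e']
        rfl
      rw [← e]
      exact h2
    rw [← cc_cc (d (cc L x)), h3]
  let s : fix L D ≃+* fix L D :=
    { toFun := fun x => ⟨(cc L ⟨x.1, fix_le D x.2⟩ : L), hstab ⟨x.1, fix_le D x.2⟩ x.2⟩
      invFun := fun x => ⟨(cc L ⟨x.1, fix_le D x.2⟩ : L), hstab ⟨x.1, fix_le D x.2⟩ x.2⟩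
      left_inv := fun x => by
        apply Subtype.ext
        show ((cc L (cc L ⟨x.1, fix_le D x.2⟩) : L) : ℂ) = x.1
        rw [cc_cc]
      right_inv := fun x => by
        apply Subtype.ext
        show ((cc L (cc L ⟨x.1, fix_le D x.2⟩) : L) : ℂ) = x.1
        rw [cc_cc]
      map_mul' := fun x y => by
        apply Subtype.ext
        show ((cc L ⟨x.1 * y.1, _⟩ : L) : ℂ) =
          ((cc L ⟨x.1, _⟩ : L) : ℂ) * ((cc L ⟨y.1, _⟩ : L) : ℂ)
        simp only [cc_apply, map_mul]
      map_add' := fun x y => by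
        apply Subtype.ext
        show ((cc L ⟨x.1 + y.1, _⟩ : L) : ℂ) =
          ((cc L ⟨x.1, _⟩ : L) : ℂ) + ((cc L ⟨y.1, _⟩ : L) : ℂ)
        simp only [cc_apply, map_add] }
  refine isCMField_of_ringEquiv (fix L D) s ?_ ?_
  · intro φ x
    let _ : Algebra (fix L D) L := (IntermediateField.inclusion (fix_le D)).toRingHom.toAlgebra
    let _ : Algebra (fix L D) ℂ := φ.toAlgebra
    have : IsScalarTower ℚ (fix L D) L := IsScalarTower.of_algebraMap_eq fun _ => rfl
    have : Algebra.IsAlgebraic (fix L D) L := Algebra.IsAlgebraic.tower_top (K := ℚ) (fix L D)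
    let ψ : L →ₐ[fix L D] ℂ := IsAlgClosed.lift
    have hψ : ∀ y : fix L D, ψ (algebraMap (fix L D) L y) = φ y := fun y => ψ.commutes y
    have hG : IsGalois ℚ L := ⟨⟩
    obtain ⟨σ, hσ⟩ := ComplexEmbedding.exists_comp_symm_eq_of_comp_eq (k := ℚ) L.val.toRingHom
      ψ.toRingHom (RingHom.ext fun q => by simp)
    have hσ' : ∀ y : L, ψ y = ((σ.symm y : L) : ℂ) := fun y => (RingHom.congr_fun hσ y).symm
    set y : L := ⟨x.1, fix_le D x.2⟩ with hy
    have h1 : φ x = ((σ.symm y : L) : ℂ) := by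
      rw [← hσ', ← hψ]
      rfl
    have h2 : φ (s x) = ((σ.symm (cc L y) : L) : ℂ) := by
      rw [← hσ', ← hψ]
      rfl
    rw [h1, h2, ← cc_apply]
    congr 1
    have h3 : (y : ℂ) ∈ fix L D := x.2
    have h4 := mem_fix.1 h3 _ (hD (conj_mem (B := B) (σ⁻¹ : L ≃ₐ[ℚ] L)))
    have h5 : σ (cc L (σ.symm (cc L y))) = y := by
      have e : ((σ⁻¹)⁻¹ * cc L * σ⁻¹ * cc L : L ≃ₐ[ℚ] L) y = σ (cc L (σ.symm (cc L y))) := by
        rw [inv_inv]
        rfl
      rw [← e]
      exact h4
    have h6 : cc L (σ.symm (cc L y)) = σ.symm y := by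
      rw [AlgEquiv.eq_symm_apply]
      exact h5
    rw [← h6, cc_cc]
  · by_contra hcon
    push Not at hcon
    apply hc
    have h1 : cc L ∈ (IntermediateField.fixedField D).fixingSubgroup := by
      rw [IntermediateField.mem_fixingSubgroup_iff]
      intro x hx
      have h2 : (x : ℂ) ∈ fix L D := (IntermediateField.mem_lift x).2 hx
      have h3 := congrArg Subtype.val (hcon ⟨(x : ℂ), h2⟩)
      exact Subtype.ext h3
    rwa [IntermediateField.fixingSubgroup_fixedField] at h1

/-- **Real places and CM fields suffice**, for the subfields of a Galois number field. -/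
theorem main_of_le (B : IntermediateField ℚ ℂ) [Algebra.IsAlgebraic ℚ B] [IsTotallyReal B]
    (P : IntermediateField ℚ ℂ → Prop) (hP : GenusTheory p B P)
    (L : IntermediateField ℚ ℂ) [hLfin : FiniteDimensional ℚ L] [hLn : Normal ℚ L]
    (h1 : ∀ K : IntermediateField ℚ ℂ, K ≤ L → Nonempty (K →+* ℝ) → P K)
    (h2 : ∀ K : IntermediateField ℚ ℂ, K ≤ L → IsCMField K → ¬ p ∣ Module.finrank ℚ K → P K)
    (K : IntermediateField ℚ ℂ) (hKL : K ≤ L) : P K := by
  classical
  have hG : IsGalois ℚ L := ⟨⟩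
  obtain ⟨V, _, _, ρ, hV⟩ := hP L hLfin hLn
  -- the group `D`
  have hMn : (MM B L).Normal := MM_normal
  obtain ⟨S⟩ : Nonempty (Sylow p ((L ≃ₐ[ℚ] L) ⧸ MM B L)) := inferInstance
  let D : Subgroup (L ≃ₐ[ℚ] L) := (S : Subgroup _).comap (QuotientGroup.mk' (MM B L))
  have hDM : MM B L ≤ D := by
    intro x hx
    show (QuotientGroup.mk' (MM B L)) x ∈ (S : Subgroup _)
    rw [QuotientGroup.mk'_apply, (QuotientGroup.eq_one_iff x).2 hx]
    exact one_mem _
  have hDi : ¬ p ∣ D.index := by
    rw [Subgroup.index_comap_of_surjective _ (QuotientGroup.mk'_surjective _)]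
    exact S.not_dvd_index
  have hDp : ∀ d ∈ D, ∃ n : ℕ, d ^ p ^ n ∈ MM B L := by
    intro d hd
    obtain ⟨n, hn⟩ := S.isPGroup' ⟨_, hd⟩
    refine ⟨n, ?_⟩
    have h3 := congrArg Subtype.val hn
    rw [← QuotientGroup.eq_one_iff]
    exact h3
  have hPD : P (fix L D) := by
    by_cases hc : cc L ∈ D
    · refine h1 _ (fix_le D) ⟨?_⟩
      let f : fix L D →+* ℂ := (fix L D).val.toRingHom
      have hf : ComplexEmbedding.IsReal f := by
        refine RingHom.ext fun x => ?_
        show conj (x : ℂ) = x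
        have h0 : (((⟨x.1, fix_le D x.2⟩ : L) : L) : ℂ) ∈ fix L D := x.2
        have h3 := mem_fix.1 h0 _ hc
        have h4 := congrArg Subtype.val h3
        rw [cc_apply] at h4
        exact h4
      exact hf.embedding
    · exact h2 _ (fix_le D) (isCMField_fix (B := B) D hDM hc) (by rwa [finrank_fix])
  have hVfin : Module.Finite (ZMod p) V := by
    refine finite_of_involution ρ (cg (B := B)) cg_mul_cg conj_cg (fun g => ?_) D
      ((hV D).1 hPD) hDp MM_le
    exact (hV _).1 (h1 _ (fix_le _) (real_embedding g))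
  have h30 : IntermediateField.fixedField (IntermediateField.restrict hKL).fixingSubgroup =
      IntermediateField.restrict hKL := IsGalois.fixedField_fixingSubgroup (h := hG) _
  have h3 : K = fix L (IntermediateField.restrict hKL).fixingSubgroup :=
    (IntermediateField.lift_restrict hKL).symm.trans (congrArg IntermediateField.lift h30.symm)
  rw [h3]
  exact (hV _).2 inferInstance

lemma normal_normalClosure (K : IntermediateField ℚ ℂ) [FiniteDimensional ℚ K] :
    Normal ℚ (IntermediateField.normalClosure ℚ K ℂ) := by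
  have h0 : IsNormalClosure ℚ K (IntermediateField.normalClosure ℚ K ℂ) :=
    Algebra.IsAlgebraic.isNormalClosure_normalClosure fun x => IsAlgClosed.splits _
  exact h0.normal

/-- **Real places and CM fields suffice**, for a class of number fields. -/
theorem main (B : IntermediateField ℚ ℂ) [Algebra.IsAlgebraic ℚ B] [IsTotallyReal B]
    (P : IntermediateField ℚ ℂ → Prop) (hP : GenusTheory p B P)
    (𝒞 : Set (IntermediateField ℚ ℂ)) (hfin : ∀ K ∈ 𝒞, FiniteDimensional ℚ K)
    (hsub : ∀ K L : IntermediateField ℚ ℂ, K ≤ L → L ∈ 𝒞 → K ∈ 𝒞)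
    (hncl : ∀ K ∈ 𝒞, IntermediateField.normalClosure ℚ K ℂ ∈ 𝒞)
    (h1 : ∀ K ∈ 𝒞, Nonempty (K →+* ℝ) → P K)
    (h2 : ∀ K ∈ 𝒞, IsCMField K → ¬ p ∣ Module.finrank ℚ K → P K)
    (K : IntermediateField ℚ ℂ) (hK : K ∈ 𝒞) : P K := by
  have hKfin := hfin K hK
  have hL := hncl K hK
  have hLn := normal_normalClosure K
  exact main_of_le B P hP (IntermediateField.normalClosure ℚ K ℂ)
    (fun E hE => h1 E (hsub E _ hE hL)) (fun E hE => h2 E (hsub E _ hE hL)) K
    (IntermediateField.le_normalClosure K)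

end Pool.Agent.TH127.MU
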