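import Pool.Agent.TH127.MU.Quad4
import Pool.Agent.TH127.MU.Inertia

/-!
# The criterion for one Galois extension
-/

namespace Pool.Agent.TH127.MU

open Module NumberField ComplexConjugate

section P

variable {p : ℕ} [Fact p.Prime] {B : IntermediateField ℚ ℂ} {P : IntermediateField ℚ ℂ → Prop}

/-- The property passes to subfields. -/
theorem P_of_le_of_le (hP : GenusTheory p B P) (L : IntermediateField ℚ ℂ)
    [hL : FiniteDimensional ℚ L] [hLn : Normal ℚ L] {K F : IntermediateField ℚ ℂ} (hKF : K ≤ F)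
    (hFL : F ≤ L) (h : P F) : P K := by
  obtain ⟨V, _, _, ρ, hV⟩ := hP L hL hLn
  have hKL := hKF.trans hFL
  rw [eq_fix hFL] at h
  rw [eq_fix hKL]
  have h1 := (hV _).1 h
  refine (hV _).2 ?_
  have hle : augOn ρ (IntermediateField.restrict hFL).fixingSubgroup ≤
      augOn ρ (IntermediateField.restrict hKL).fixingSubgroup := by
    refine Submodule.span_mono ?_
    rintro x ⟨g, hg, v, rfl⟩
    refine ⟨g, ?_, v, rfl⟩
    refine (IntermediateField.mem_fixingSubgroup_iff _ _).2 fun y hy => ?_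
    refine (IntermediateField.mem_fixingSubgroup_iff _ _).1 hg y ?_
    rw [IntermediateField.mem_restrict] at hy ⊢
    exact hKF hy
  exact Module.Finite.of_surjective (Submodule.factor hle) (Submodule.factor_surjective hle)

/-- A subfield with a real embedding is fixed by a complex conjugation. -/
lemma le_fix_of_real {K L : IntermediateField ℚ ℂ} [FiniteDimensional ℚ L] [hLn : Normal ℚ L]
    (hKL : K ≤ L) (h : Nonempty (K →+* ℝ)) :
    ∃ g : L ≃ₐ[ℚ] L, K ≤ fix L (Subgroup.zpowers (g * cc L * g⁻¹)) := by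
  obtain ⟨φ⟩ := h
  let f : K →+* ℂ := Complex.ofRealHom.comp φ
  let _ : Algebra K L := (IntermediateField.inclusion hKL).toRingHom.toAlgebra
  let _ : Algebra K ℂ := f.toAlgebra
  have : IsScalarTower ℚ K L := IsScalarTower.of_algebraMap_eq fun _ => rfl
  have : Algebra.IsAlgebraic K L := Algebra.IsAlgebraic.tower_top (K := ℚ) K
  let ψ : L →ₐ[K] ℂ := IsAlgClosed.lift
  have hψ : ∀ x : K, ψ (algebraMap K L x) = f x := fun x => ψ.commutes x
  have hG : IsGalois ℚ L := ⟨⟩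
  obtain ⟨σ, hσ⟩ := ComplexEmbedding.exists_comp_symm_eq_of_comp_eq (k := ℚ) L.val.toRingHom
    ψ.toRingHom (RingHom.ext fun q => by simp)
  have hσ' : ∀ y : L, ψ y = ((σ.symm y : L) : ℂ) := fun y => (RingHom.congr_fun hσ y).symm
  refine ⟨σ, fun x hx => ?_⟩
  have hxL : x ∈ L := hKL hx
  refine (mem_fix (x := (⟨x, hxL⟩ : L))).2 ?_
  intro τ hτ
  have h1 : σ * cc L * σ⁻¹ ∈ MulAction.stabilizer (L ≃ₐ[ℚ] L) (⟨x, hxL⟩ : L) := by
    show σ (cc L (σ.symm ⟨x, hxL⟩)) = ⟨x, hxL⟩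
    have h2 : cc L (σ.symm ⟨x, hxL⟩) = σ.symm ⟨x, hxL⟩ := by
      apply Subtype.ext
      rw [cc_apply, ← hσ']
      have h3 : ψ (⟨x, hxL⟩ : L) = f ⟨x, hx⟩ := hψ ⟨x, hx⟩
      rw [h3]
      exact Complex.conj_ofReal _
    rw [h2, AlgEquiv.apply_symm_apply]
  exact (Subgroup.zpowers_le.2 h1) hτ

/-- The criterion. -/
theorem P_iff_real_and_cm [Algebra.IsAlgebraic ℚ B] [IsTotallyReal B] (hP : GenusTheory p B P)
    (L : IntermediateField ℚ ℂ) [hL : FiniteDimensional ℚ L] [hLn : Normal ℚ L]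
    (hconj : ∀ g : L ≃ₐ[ℚ] L, P (fix L (Subgroup.zpowers (cc L))) →
        P (fix L (Subgroup.zpowers (g * cc L * g⁻¹)))) :
    P L ↔ P (L ⊓ realField) ∧
      ∀ K ≤ L, IsCMField K → ¬ p ∣ Module.finrank ℚ K → P K := by
  constructor
  · intro h
    have h1 := P_of_le hP L h
    exact ⟨h1 _ inf_le_left, fun K hK _ _ => h1 K hK⟩
  · rintro ⟨h1, h2⟩
    rw [← fix_cc] at h1
    refine main_of_le B P hP L (fun K hK hreal => ?_) h2 L le_rfl
    obtain ⟨g, hg⟩ := le_fix_of_real hK hreal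
    exact P_of_le_of_le hP L hg (fix_le _) (hconj g h1)

end P

/-- The criterion for characters. -/
theorem criterion_chars (p : ℕ) [Fact p.Prime] (B : IntermediateField ℚ ℂ) [Normal ℚ B]
    [IsTotallyReal B] (𝓘 : Set (Subgroup GQ)) (h𝓘 : ConjClosed 𝓘) (hfew : FewRamified 𝓘 B)
    (L : IntermediateField ℚ ℂ) [FiniteDimensional ℚ L] [Normal ℚ L] :
    FewChars p 𝓘 B L ↔ FewChars p 𝓘 B (L ⊓ realField) ∧
      ∀ K ≤ L, IsCMField K → ¬ p ∣ Module.finrank ℚ K → FewChars p 𝓘 B K := by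
  have hBalg : Algebra.IsAlgebraic ℚ B := Normal.toIsAlgebraic
  simp only [fewChars_iff]
  exact P_iff_real_and_cm (genusTheory_chars (p := p) (B := B) h𝓘 hfew) L
    fun g hg => finite_chars_fix_conj h𝓘 B L g hg

end Pool.Agent.TH127.MU
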