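import Pool.Agent.TH127.MU.Genus2
import Mathlib.FieldTheory.Galois.Abelian

/-!
# Abelian extensions of imaginary quadratic fields: the criterion
-/

namespace Pool.Agent.TH127.MU

open Module NumberField ComplexConjugate

section alg

variable {p : ℕ} [Fact p.Prime] {V : Type*} [AddCommGroup V] [Module (ZMod p) V]
  {G : Type*} [Group G] [Finite G] {H : Subgroup G}

/-- Coinvariants under a `p`-group. -/
theorem finite_of_augOn_pgroup (ρ : Representation (ZMod p) H V) (T : Subgroup G)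
    (hT : IsPGroup p T) (h : Module.Finite (ZMod p) (V ⧸ augOn ρ T)) :
    Module.Finite (ZMod p) V := by
  let Γ : Subgroup H := T.subgroupOf H
  let σ : Representation (ZMod p) Γ V := ρ.comp Γ.subtype
  have hΓ : IsPGroup p Γ := by
    rintro ⟨q, hq⟩
    obtain ⟨n, hn⟩ := hT ⟨(q : G), hq⟩
    refine ⟨n, ?_⟩
    apply Subtype.ext
    apply Subtype.ext
    have h1 := congrArg Subtype.val hn
    simpa using h1
  have hle : augOn ρ T ≤ aug σ := by
    refine Submodule.span_le.2 ?_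
    rintro _ ⟨h, hh, v, rfl⟩
    exact Submodule.subset_span ⟨⟨h, hh⟩, v, rfl⟩
  exact finite_of_pgroup hΓ σ
    (Module.Finite.of_surjective (Submodule.factor hle) (Submodule.factor_surjective hle))

end alg

/-- A subfield of `L` is a fixed field. -/
lemma eq_fix {K L : IntermediateField ℚ ℂ} [FiniteDimensional ℚ L] [Normal ℚ L] (hKL : K ≤ L) :
    K = fix L (IntermediateField.restrict hKL).fixingSubgroup := by
  have hG : IsGalois ℚ L := ⟨⟩
  have h30 : IntermediateField.fixedField (IntermediateField.restrict hKL).fixingSubgroup =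
      IntermediateField.restrict hKL := IsGalois.fixedField_fixingSubgroup (h := hG) _
  exact (IntermediateField.lift_restrict hKL).symm.trans
    (congrArg IntermediateField.lift h30.symm)

section P

variable {p : ℕ} [Fact p.Prime] {B : IntermediateField ℚ ℂ} {P : IntermediateField ℚ ℂ → Prop}

/-- The property passes to subfields. -/
theorem P_of_le (hP : GenusTheory p B P) (L : IntermediateField ℚ ℂ) [hL : FiniteDimensional ℚ L]
    [hLn : Normal ℚ L] (h : P L) (K : IntermediateField ℚ ℂ) (hKL : K ≤ L) : P K := by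
  obtain ⟨V, _, _, ρ, hV⟩ := hP L hL hLn
  have h1 : P (fix L (IntermediateField.restrict (le_refl L)).fixingSubgroup) := by
    rwa [← eq_fix (le_refl L)]
  have hbot : (IntermediateField.restrict (le_refl L)).fixingSubgroup = ⊥ := by
    rw [Subgroup.eq_bot_iff_forall]
    intro σ hσ
    refine AlgEquiv.ext fun x => ?_
    exact (IntermediateField.mem_fixingSubgroup_iff _ _).1 hσ x
      ((IntermediateField.mem_restrict _ x).2 x.2)
  rw [hbot] at h1
  have h2 : Module.Finite (ZMod p) V :=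
    finite_of_augOn_pgroup ρ ⊥ IsPGroup.of_bot ((hV ⊥).1 h1)
  rw [eq_fix hKL]
  exact (hV _).2 inferInstance

/-- Iwasawa's theorem on `p`-extensions. -/
theorem P_of_pgroup (hP : GenusTheory p B P) (L : IntermediateField ℚ ℂ)
    [hL : FiniteDimensional ℚ L] [hLn : Normal ℚ L] (T : Subgroup (L ≃ₐ[ℚ] L))
    (hT : IsPGroup p T) (h : P (fix L T)) (K : IntermediateField ℚ ℂ) (hKL : K ≤ L) : P K := by
  obtain ⟨V, _, _, ρ, hV⟩ := hP L hL hLn
  have h2 : Module.Finite (ZMod p) V := finite_of_augOn_pgroup ρ T hT ((hV T).1 h)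
  rw [eq_fix hKL]
  exact (hV _).2 inferInstance

/-- The fixed fields of the complex conjugations and the maximal subfield in which they agree. -/
theorem P_of_conj [Algebra.IsAlgebraic ℚ B] [IsTotallyReal B] (hP : GenusTheory p B P)
    (L : IntermediateField ℚ ℂ) [hL : FiniteDimensional ℚ L] [hLn : Normal ℚ L]
    (h1 : ∀ g : L ≃ₐ[ℚ] L, P (fix L (Subgroup.zpowers (g * cc L * g⁻¹))))
    (h2 : P (fix L (MM B L))) (K : IntermediateField ℚ ℂ) (hKL : K ≤ L) : P K := by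
  obtain ⟨V, _, _, ρ, hV⟩ := hP L hL hLn
  have hVfin : Module.Finite (ZMod p) V := by
    refine finite_of_involution ρ (cg (B := B)) cg_mul_cg conj_cg (fun g => (hV _).1 (h1 g))
      (MM B L) ((hV _).1 h2) (fun d hd => ⟨0, ?_⟩) MM_le
    rw [pow_zero, pow_one]
    exact hd
  rw [eq_fix hKL]
  exact (hV _).2 inferInstance

end P

section conjugate

variable {p : ℕ} [Fact p.Prime] {𝓘 : Set (Subgroup GQ)}

lemma apply_mem_of_normal (B : IntermediateField ℚ ℂ) [hBn : Normal ℚ B] (σ : GQ)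
    (x : algebraicClosure ℚ ℂ) (hx : (x : ℂ) ∈ B) : ((σ x : algebraicClosure ℚ ℂ) : ℂ) ∈ B := by
  have hB : B ≤ algebraicClosure ℚ ℂ := by
    intro y hy
    rw [mem_algebraicClosure_iff]
    have h1 : IsAlgebraic ℚ (⟨y, hy⟩ : B) := Algebra.IsAlgebraic.isAlgebraic _
    exact (isAlgebraic_algebraMap_iff (algebraMap B ℂ).injective).2 h1
  let f : B →ₐ[ℚ] ℂ := ((algebraicClosure ℚ ℂ).val.comp σ.toAlgHom).comp
    (IntermediateField.inclusion hB)
  have h1 : f.fieldRange = B := @AlgHom.fieldRange_of_normal ℚ ℂ _ _ _ B hBn f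
  have h2 : f ⟨x, hx⟩ ∈ f.fieldRange := ⟨_, rfl⟩
  rw [h1] at h2
  exact h2

lemma conj_mem_absGal_iff (B : IntermediateField ℚ ℂ) [Normal ℚ B] (σ x : GQ) :
    σ⁻¹ * x * σ ∈ absGal B ↔ x ∈ absGal B := by
  have key : ∀ σ x : GQ, x ∈ absGal B → σ⁻¹ * x * σ ∈ absGal B := by
    intro σ x hx y hy
    show σ.symm (x (σ y)) = y
    rw [hx (σ y) (apply_mem_of_normal B σ y hy), AlgEquiv.symm_apply_apply]
  refine ⟨fun h => ?_, key σ x⟩
  have h1 := key σ⁻¹ _ h
  have e : (σ⁻¹)⁻¹ * (σ⁻¹ * x * σ) * σ⁻¹ = x := by group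
  rwa [e] at h1

/-- Conjugate groups have the same number of characters. -/
theorem finite_chars_conj (h𝓘 : ConjClosed 𝓘) (U U' : Subgroup GQ) (σ : GQ)
    (hU : ∀ x, σ⁻¹ * x * σ ∈ U ↔ x ∈ U') (h : Module.Finite (ZMod p) (chars p 𝓘 U)) :
    Module.Finite (ZMod p) (chars p 𝓘 U') := by
  have hU' : ∀ x, σ * x * σ⁻¹ ∈ U' ↔ x ∈ U := by
    intro x
    rw [← hU]
    have e : σ⁻¹ * (σ * x * σ⁻¹) * σ = x := by group
    rw [e]
  let Ψ : chars p 𝓘 U' →ₗ[ZMod p] chars p 𝓘 U :=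
    { toFun := fun f => ⟨fun x => f.1 (σ * x * σ⁻¹), by
        obtain ⟨h1, h2, ⟨K, hK, hKn, h3⟩, h4⟩ := f.2
        refine ⟨fun g hg => h1 _ fun h => hg ((hU' g).1 h), fun g hg h hh => ?_,
          ⟨K, hK, hKn, fun g hg hgK => h3 _ ((hU' g).2 hg) ?_⟩, fun I hI g hg hgI => ?_⟩
        · have e : σ * (g * h) * σ⁻¹ = (σ * g * σ⁻¹) * (σ * h * σ⁻¹) := by group
          show f.1 (σ * (g * h) * σ⁻¹) = f.1 (σ * g * σ⁻¹) + f.1 (σ * h * σ⁻¹)
          rw [e]
          exact h2 _ ((hU' g).2 hg) _ ((hU' h).2 hh)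
        · have h5 := (conj_mem_absGal K σ⁻¹ g).2 hgK
          rwa [inv_inv] at h5
        · exact h4 _ (h𝓘 I hI σ) _ ((hU' g).2 hg) ⟨g, hgI, rfl⟩⟩
      map_add' := fun _ _ => rfl
      map_smul' := fun _ _ => rfl }
  refine Module.Finite.of_injective Ψ ?_
  intro f f' hff
  apply Subtype.ext
  funext x
  have h1 := congrFun (congrArg Subtype.val hff) (σ⁻¹ * x * σ)
  have h2 : f.1 (σ * (σ⁻¹ * x * σ) * σ⁻¹) = f'.1 (σ * (σ⁻¹ * x * σ) * σ⁻¹) := h1
  have e : σ * (σ⁻¹ * x * σ) * σ⁻¹ = x := by group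
  rwa [e] at h2

/-- The fixed fields of conjugate groups are equivalent. -/
theorem finite_chars_fix_conj (h𝓘 : ConjClosed 𝓘) (B L : IntermediateField ℚ ℂ) [Normal ℚ B]
    [FiniteDimensional ℚ L] [Normal ℚ L] (g : L ≃ₐ[ℚ] L)
    (h : Module.Finite (ZMod p) (chars p 𝓘 (absGal (fix L (Subgroup.zpowers (cc L))) ⊓ absGal B))) :
    Module.Finite (ZMod p)
      (chars p 𝓘 (absGal (fix L (Subgroup.zpowers (g * cc L * g⁻¹))) ⊓ absGal B)) := by
  obtain ⟨σ, hσ⟩ := rr_surjective L g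
  refine finite_chars_conj h𝓘 _ _ σ (fun x => ?_) h
  rw [Subgroup.mem_inf, Subgroup.mem_inf, conj_mem_absGal_iff B, mem_absGal_fix, mem_absGal_fix,
    map_mul, map_mul, map_inv, hσ]
  have h1 : g⁻¹ * rr L x * g ∈ Subgroup.zpowers (cc L) ↔
      rr L x ∈ Subgroup.zpowers (g * cc L * g⁻¹) := by
    constructor
    · rintro ⟨k, hk⟩
      refine ⟨k, ?_⟩
      have e : (g * cc L * g⁻¹) ^ k = g * cc L ^ k * g⁻¹ := conj_zpow
      show (g * cc L * g⁻¹) ^ k = rr L x
      have hk' : cc L ^ k = g⁻¹ * rr L x * g := hk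
      rw [e, hk']
      group
    · rintro ⟨k, hk⟩
      refine ⟨k, ?_⟩
      have e : (g * cc L * g⁻¹) ^ k = g * cc L ^ k * g⁻¹ := conj_zpow
      have hk' : (g * cc L * g⁻¹) ^ k = rr L x := hk
      show cc L ^ k = g⁻¹ * rr L x * g
      rw [← hk', e]
      group
  rw [h1]

end conjugate

end Pool.Agent.TH127.MU
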