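import Pool.Agent.TH127.MU.Quad

/-!
# Abelian extensions of imaginary quadratic fields: Galois groups
-/

namespace Pool.Agent.TH127.MU

open Module NumberField ComplexConjugate

/-- `K` is a finite abelian extension of `k`. -/
def IsFiniteAbelian (k K : IntermediateField ℚ ℂ) : Prop :=
  FiniteDimensional ℚ K ∧ ∃ h : k ≤ K, IsAbelianGalois k (IntermediateField.extendScalars h)

/-- `k` is an imaginary quadratic field. -/
def IsImaginaryQuadratic (k : IntermediateField ℚ ℂ) : Prop :=
  Module.finrank ℚ k = 2 ∧ ∃ x ∈ k, conj x ≠ x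

/-- The automorphisms of `L` over `k`. -/
noncomputable def AA (k L : IntermediateField ℚ ℂ) : Subgroup (L ≃ₐ[ℚ] L) := baseGroup k L

section

variable {k L : IntermediateField ℚ ℂ}

lemma fix_AA [FiniteDimensional ℚ L] [Normal ℚ L] (hkL : k ≤ L) : fix L (AA k L) = k := by
  have h : AA k L = (IntermediateField.restrict hkL).fixingSubgroup := by
    ext σ
    constructor
    · intro hσ
      exact (IntermediateField.mem_fixingSubgroup_iff _ _).2 fun x hx =>
        hσ x ((IntermediateField.mem_restrict hkL x).1 hx)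
    · intro hσ x hx
      exact (IntermediateField.mem_fixingSubgroup_iff _ _).1 hσ x
        ((IntermediateField.mem_restrict hkL x).2 hx)
  rw [h]
  exact (eq_fix hkL).symm

lemma AA_index [FiniteDimensional ℚ L] [Normal ℚ L] (hkL : k ≤ L)
    (hk : Module.finrank ℚ k = 2) : (AA k L).index = 2 := by
  rw [← finrank_fix, fix_AA hkL, hk]

lemma cc_notMem_AA [Normal ℚ L] (hkL : k ≤ L) (hk : ∃ x ∈ k, conj x ≠ x) : cc L ∉ AA k L := by
  obtain ⟨x, hx, hne⟩ := hk
  intro h
  apply hne
  have h1 := congrArg Subtype.val (h ⟨x, hkL hx⟩ hx)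
  rw [cc_apply] at h1
  exact h1

/-- Each element is in `A` or in `A c`. -/
lemma mem_AA_or [FiniteDimensional ℚ L] [Normal ℚ L] (hkL : k ≤ L)
    (hk : IsImaginaryQuadratic k) (g : L ≃ₐ[ℚ] L) : g ∈ AA k L ∨ g * cc L ∈ AA k L := by
  by_cases h : g ∈ AA k L
  · exact Or.inl h
  · right
    rw [Subgroup.mul_mem_iff_of_index_two (AA_index hkL hk.1)]
    exact iff_of_false h (cc_notMem_AA hkL hk.2)

/-- The Galois group of `L` over `k` is commutative. -/
lemma AA_comm_of_isAbelianGalois (h : k ≤ L)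
    (hab : IsAbelianGalois k (IntermediateField.extendScalars h)) {a b : L ≃ₐ[ℚ] L}
    (ha : a ∈ AA k L) (hb : b ∈ AA k L) : a * b = b * a := by
  let E := IntermediateField.extendScalars h
  have key : ∀ a ∈ AA k L, ∃ a' : E ≃ₐ[k] E, ∀ x : L, ((a' ⟨x.1, x.2⟩ : E) : ℂ) = (a x : L) := by
    intro a ha
    refine ⟨{ toFun := fun x => ⟨(a ⟨x.1, x.2⟩ : L).1, (a ⟨x.1, x.2⟩ : L).2⟩
              invFun := fun x => ⟨(a.symm ⟨x.1, x.2⟩ : L).1, (a.symm ⟨x.1, x.2⟩ : L).2⟩
              left_inv := fun x => ?_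
              right_inv := fun x => ?_
              map_mul' := fun x y => ?_
              map_add' := fun x y => ?_
              commutes' := fun r => ?_ }, fun x => rfl⟩
    · apply Subtype.ext
      exact congrArg Subtype.val (a.symm_apply_apply ⟨x.1, x.2⟩)
    · apply Subtype.ext
      exact congrArg Subtype.val (a.apply_symm_apply ⟨x.1, x.2⟩)
    · apply Subtype.ext
      exact congrArg Subtype.val (map_mul a ⟨x.1, x.2⟩ ⟨y.1, y.2⟩)
    · apply Subtype.ext
      exact congrArg Subtype.val (map_add a ⟨x.1, x.2⟩ ⟨y.1, y.2⟩)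
    · apply Subtype.ext
      exact congrArg Subtype.val (ha ⟨r.1, h r.2⟩ r.2)
  obtain ⟨a', ha'⟩ := key a ha
  obtain ⟨b', hb'⟩ := key b hb
  have h1 : a' * b' = b' * a' := mul_comm' a' b'
  refine AlgEquiv.ext fun x => Subtype.ext ?_
  have h2 := congrArg Subtype.val (AlgEquiv.congr_fun h1 ⟨x.1, x.2⟩)
  have h3 : ((a' (b' ⟨x.1, x.2⟩) : E) : ℂ) = (a (b x) : L) := by
    have e : b' ⟨x.1, x.2⟩ = ⟨(b x).1, (b x).2⟩ := Subtype.ext (hb' x)
    rw [e]
    exact ha' (b x)
  have h4 : ((b' (a' ⟨x.1, x.2⟩) : E) : ℂ) = (b (a x) : L) := by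
    have e : a' ⟨x.1, x.2⟩ = ⟨(a x).1, (a x).2⟩ := Subtype.ext (ha' x)
    rw [e]
    exact hb' (a x)
  exact h3.symm.trans (h2.trans h4)

/-- The Galois group modulo `MM` is commutative. -/
lemma comm_mod_MM {B : IntermediateField ℚ ℂ} [Algebra.IsAlgebraic ℚ B] [IsTotallyReal B]
    [FiniteDimensional ℚ L] [Normal ℚ L] (hkL : k ≤ L) (hk : IsImaginaryQuadratic k)
    (hA : ∀ a ∈ AA k L, ∀ b ∈ AA k L, a * b = b * a) (g h : L ≃ₐ[ℚ] L) :
    (h * g)⁻¹ * (g * h) ∈ MM B L := by
  have hn : (MM B L).Normal := MM_normal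
  let q : (L ≃ₐ[ℚ] L) →* (L ≃ₐ[ℚ] L) ⧸ MM B L := QuotientGroup.mk' (MM B L)
  have hc2 : q (cc L) * q (cc L) = 1 := by
    rw [← map_mul]
    have : cc L * cc L = 1 := AlgEquiv.ext fun x => cc_cc x
    rw [this, map_one]
  have hc : ∀ g, q g * q (cc L) = q (cc L) * q g := by
    intro g
    have h1 : q (g⁻¹ * cc L * g * cc L) = 1 := (QuotientGroup.eq_one_iff _).2 (conj_mem g)
    rw [map_mul, map_mul, map_mul, map_inv] at h1
    have h2 : q (cc L) * q g * q (cc L) = q g := by
      calc q (cc L) * q g * q (cc L) = q g * ((q g)⁻¹ * q (cc L) * q g * q (cc L)) := by group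
        _ = q g := by rw [h1, mul_one]
    calc q g * q (cc L) = (q (cc L) * q g * q (cc L)) * q (cc L) := by rw [h2]
      _ = q (cc L) * q g * (q (cc L) * q (cc L)) := by group
      _ = q (cc L) * q g := by rw [hc2, mul_one]
  have key : ∀ g, ∃ a ∈ AA k L, q g = q a ∨ q g = q a * q (cc L) := by
    intro g
    rcases mem_AA_or hkL hk g with h1 | h1
    · exact ⟨g, h1, Or.inl rfl⟩
    · refine ⟨_, h1, Or.inr ?_⟩
      rw [map_mul, mul_assoc, hc2, mul_one]
  obtain ⟨a, ha, hga⟩ := key g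
  obtain ⟨b, hb, hhb⟩ := key h
  have hab : q a * q b = q b * q a := by rw [← map_mul, hA a ha b hb, map_mul]
  have hmain : q g * q h = q h * q g := by
    rcases hga with h1 | h1 <;> rcases hhb with h2 | h2 <;> rw [h1, h2]
    · exact hab
    · calc q a * (q b * q (cc L)) = (q a * q b) * q (cc L) := by group
        _ = q b * (q a * q (cc L)) := by rw [hab]; group
        _ = q b * q (cc L) * q a := by rw [hc a]; group
    · calc q a * q (cc L) * q b = q a * (q (cc L) * q b) := by group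
        _ = q a * q b * q (cc L) := by rw [← hc b]; group
        _ = q b * (q a * q (cc L)) := by rw [hab]; group
    · calc q a * q (cc L) * (q b * q (cc L)) = q a * (q (cc L) * q b) * q (cc L) := by group
        _ = q a * q b * q (cc L) * q (cc L) := by rw [← hc b]; group
        _ = q b * (q a * q (cc L)) * q (cc L) := by rw [hab]; group
        _ = q b * (q (cc L) * q a) * q (cc L) := by rw [hc a]
        _ = q b * q (cc L) * (q a * q (cc L)) := by group
  rw [← QuotientGroup.eq_one_iff]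
  show q ((h * g)⁻¹ * (g * h)) = 1
  rw [map_mul, map_inv, map_mul, map_mul, hmain, inv_mul_cancel]

end

end Pool.Agent.TH127.MU
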