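import Pool.Agent.TH127.MU.Quad2

/-!
# Abelian extensions of imaginary quadratic fields: subfields
-/

namespace Pool.Agent.TH127.MU

open Module NumberField ComplexConjugate

/-- The real numbers, as a subfield of `ℂ`. -/
noncomputable def realField : IntermediateField ℚ ℂ :=
  (Complex.ofRealAm.restrictScalars ℚ).fieldRange

lemma mem_realField {x : ℂ} : x ∈ realField ↔ conj x = x := by
  rw [Complex.conj_eq_iff_real]
  constructor
  · rintro ⟨r, hr⟩
    exact ⟨r, hr.symm⟩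
  · rintro ⟨r, hr⟩
    exact ⟨r, hr.symm⟩

lemma fix_cc (L : IntermediateField ℚ ℂ) [Normal ℚ L] :
    fix L (Subgroup.zpowers (cc L)) = L ⊓ realField := by
  ext x
  rw [IntermediateField.mem_inf, mem_realField]
  constructor
  · intro hx
    have hxL : x ∈ L := fix_le _ hx
    refine ⟨hxL, ?_⟩
    have h1 := congrArg Subtype.val (mem_fix.1 (show (((⟨x, hxL⟩ : L) : L) : ℂ) ∈
      fix L (Subgroup.zpowers (cc L)) from hx) _ (Subgroup.mem_zpowers _))
    rw [cc_apply] at h1
    exact h1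
  · rintro ⟨hxL, hx⟩
    refine (mem_fix (x := (⟨x, hxL⟩ : L))).2 ?_
    intro σ hσ
    have h1 : cc L ∈ MulAction.stabilizer (L ≃ₐ[ℚ] L) (⟨x, hxL⟩ : L) := by
      show cc L ⟨x, hxL⟩ = ⟨x, hxL⟩
      apply Subtype.ext
      rw [cc_apply]
      exact hx
    exact (Subgroup.zpowers_le.2 h1) hσ

section fixedFields

variable {L : IntermediateField ℚ ℂ} [FiniteDimensional ℚ L] [Normal ℚ L]

lemma finiteDimensional_fix (C : Subgroup (L ≃ₐ[ℚ] L)) : FiniteDimensional ℚ (fix L C) :=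
  (IntermediateField.liftAlgEquiv (IntermediateField.fixedField C)).toLinearEquiv.finiteDimensional

lemma isGalois_fix (C : Subgroup (L ≃ₐ[ℚ] L)) (hC : C.Normal) : IsGalois ℚ (fix L C) := by
  have hG : IsGalois ℚ L := ⟨⟩
  have h1 : IsGalois ℚ (IntermediateField.fixedField C) :=
    @IsGalois.of_fixedField_normal_subgroup ℚ L _ _ _ hG C hC
  exact (IntermediateField.liftAlgEquiv (IntermediateField.fixedField C)).transfer_galois.mp h1

lemma isAbelianGalois_fix (C : Subgroup (L ≃ₐ[ℚ] L)) (hC : C.Normal)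
    (h : ∀ g g' : L ≃ₐ[ℚ] L, (g' * g)⁻¹ * (g * g') ∈ C) : IsAbelianGalois ℚ (fix L C) := by
  have h1 : IsGalois ℚ (fix L C) := isGalois_fix C hC
  have h2 : FiniteDimensional ℚ (fix L C) := finiteDimensional_fix C
  have h3 : Normal ℚ (fix L C) := h1.to_normal
  have h4 : IsMulCommutative Gal(fix L C/ℚ) := by
    refine ⟨⟨fun a b => ?_⟩⟩
    obtain ⟨σ, rfl⟩ := rr_surjective (fix L C) a
    obtain ⟨τ, rfl⟩ := rr_surjective (fix L C) b
    have h5 : (τ * σ)⁻¹ * (σ * τ) ∈ absGal (fix L C) := by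
      rw [mem_absGal_fix, map_mul, map_inv, map_mul, map_mul]
      exact h _ _
    rw [← rr_eq_one_iff, map_mul, map_inv, map_mul, map_mul, inv_mul_eq_one] at h5
    exact h5.symm
  exact ⟨⟩

/-- The Galois groups of subfields. -/
lemma AA_comm_of_le {k L' : IntermediateField ℚ ℂ} [FiniteDimensional ℚ L'] [Normal ℚ L']
    [Algebra.IsAlgebraic ℚ k]
    (hL : L' ≤ L) (hA : ∀ a ∈ AA k L, ∀ b ∈ AA k L, a * b = b * a) :
    ∀ a ∈ AA k L', ∀ b ∈ AA k L', a * b = b * a := by
  intro a ha b hb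
  obtain ⟨σ, hσ, hσa⟩ := exists_lift L' k ⟨a, ha⟩
  obtain ⟨τ, hτ, hτb⟩ := exists_lift L' k ⟨b, hb⟩
  have hσa' : rr L' σ = a := hσa
  have hτb' : rr L' τ = b := hτb
  have h1 := hA _ (rr_mem_baseGroup L k σ hσ) _ (rr_mem_baseGroup L k τ hτ)
  have h2 : (τ * σ)⁻¹ * (σ * τ) ∈ absGal L := by
    rw [← rr_eq_one_iff, map_mul, map_inv, map_mul, map_mul, h1, inv_mul_cancel]
  have h3 := absGal_mono hL h2
  rw [← rr_eq_one_iff, map_mul, map_inv, map_mul, map_mul, inv_mul_eq_one, hσa', hτb'] at h3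
  exact h3.symm

/-- A Galois extension with commutative Galois group over `k` is abelian over `k`. -/
lemma isFiniteAbelian_of_comm {k : IntermediateField ℚ ℂ} (h : k ≤ L)
    (hA : ∀ a ∈ AA k L, ∀ b ∈ AA k L, a * b = b * a) : IsFiniteAbelian k L := by
  refine ⟨inferInstance, h, ?_⟩
  let E := IntermediateField.extendScalars h
  let e : L ≃ₐ[ℚ] E :=
    { toFun := fun x => ⟨x.1, x.2⟩
      invFun := fun x => ⟨x.1, x.2⟩
      left_inv := fun _ => rfl
      right_inv := fun _ => rfl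
      map_mul' := fun _ _ => rfl
      map_add' := fun _ _ => rfl
      commutes' := fun _ => by
        apply Subtype.ext
        simp }
  have hG : IsGalois ℚ L := ⟨⟩
  have hE : IsGalois ℚ E := IsGalois.of_algEquiv e
  have hkE : IsGalois k E := IsGalois.tower_top_of_isGalois ℚ k E
  have hcomm : IsMulCommutative Gal(E/k) := by
    refine ⟨⟨fun a b => ?_⟩⟩
    let φ : (E ≃ₐ[k] E) → (L ≃ₐ[ℚ] L) := fun a => e.trans ((a.restrictScalars ℚ).trans e.symm)
    have hφ : ∀ a, φ a ∈ AA k L := by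
      intro a x hx
      apply Subtype.ext
      exact congrArg Subtype.val (a.commutes ⟨x.1, hx⟩)
    have h1 := hA _ (hφ a) _ (hφ b)
    refine AlgEquiv.ext fun x => ?_
    have h2 := AlgEquiv.congr_fun h1 (e.symm x)
    exact congrArg e h2
  exact ⟨⟩

end fixedFields

end Pool.Agent.TH127.MU
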