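import Pool.Agent.TH127.MU.Quad3
import Mathlib.FieldTheory.Normal.Closure
import Mathlib.GroupTheory.Commutator.Basic
import Mathlib.GroupTheory.Sylow
import Mathlib.GroupTheory.IndexNormal

/-!
# Abelian extensions of imaginary quadratic fields: the reduction
-/

namespace Pool.Agent.TH127.MU

open Module NumberField ComplexConjugate

/-- Automorphisms over `k` act on abelian extensions of `k`. -/
lemma exists_restrict {k K N : IntermediateField ℚ ℂ} (hkK : k ≤ K) (hKN : K ≤ N)
    (hab : IsAbelianGalois k (IntermediateField.extendScalars hkK)) {a : N ≃ₐ[ℚ] N}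
    (ha : a ∈ AA k N) :
    ∃ a' : IntermediateField.extendScalars hkK ≃ₐ[k] IntermediateField.extendScalars hkK,
      ∀ (x : N) (hx : (x : ℂ) ∈ K), ((a' ⟨x.1, hx⟩ : IntermediateField.extendScalars hkK) : ℂ) =
        (a x : N) := by
  have hE : Normal k (IntermediateField.extendScalars hkK) := hab.to_normal
  let f : IntermediateField.extendScalars hkK →ₐ[k] ℂ :=
    { toFun := fun x => ((a ⟨x.1, hKN x.2⟩ : N) : ℂ)
      map_one' := congrArg Subtype.val (map_one a)
      map_mul' := fun x y => congrArg Subtype.val (map_mul a ⟨x.1, hKN x.2⟩ ⟨y.1, hKN y.2⟩)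
      map_zero' := congrArg Subtype.val (map_zero a)
      map_add' := fun x y => congrArg Subtype.val (map_add a ⟨x.1, hKN x.2⟩ ⟨y.1, hKN y.2⟩)
      commutes' := fun r => congrArg Subtype.val (ha ⟨r.1, hKN (hkK r.2)⟩ r.2) }
  exact ⟨f.restrictNormal' (IntermediateField.extendScalars hkK), fun x hx =>
    f.restrictNormal_commutes (IntermediateField.extendScalars hkK) ⟨x.1, hx⟩⟩

lemma mem_of_AA {k K N : IntermediateField ℚ ℂ} (hkK : k ≤ K) (hKN : K ≤ N)
    (hab : IsAbelianGalois k (IntermediateField.extendScalars hkK)) {a : N ≃ₐ[ℚ] N}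
    (ha : a ∈ AA k N) (x : N) (hx : (x : ℂ) ∈ K) : ((a x : N) : ℂ) ∈ K := by
  obtain ⟨a', ha'⟩ := exists_restrict hkK hKN hab ha
  rw [← ha' x hx]
  exact (a' ⟨x.1, hx⟩).2

lemma comm_on {k K N : IntermediateField ℚ ℂ} (hkK : k ≤ K) (hKN : K ≤ N)
    (hab : IsAbelianGalois k (IntermediateField.extendScalars hkK)) {a b : N ≃ₐ[ℚ] N}
    (ha : a ∈ AA k N) (hb : b ∈ AA k N) (x : N) (hx : (x : ℂ) ∈ K) : a (b x) = b (a x) := by
  obtain ⟨a', ha'⟩ := exists_restrict hkK hKN hab ha
  obtain ⟨b', hb'⟩ := exists_restrict hkK hKN hab hb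
  have h1 : a' * b' = b' * a' := mul_comm' a' b'
  apply Subtype.ext
  have h2 := congrArg Subtype.val (AlgEquiv.congr_fun h1 ⟨x.1, hx⟩)
  have hax := mem_of_AA hkK hKN hab ha x hx
  have hbx := mem_of_AA hkK hKN hab hb x hx
  have h3 : ((a' (b' ⟨x.1, hx⟩) : IntermediateField.extendScalars hkK) : ℂ) = (a (b x) : N) := by
    have e : b' ⟨x.1, hx⟩ = ⟨(b x).1, hbx⟩ := Subtype.ext (hb' x hx)
    rw [e]
    exact ha' (b x) hbx
  have h4 : ((b' (a' ⟨x.1, hx⟩) : IntermediateField.extendScalars hkK) : ℂ) = (b (a x) : N) := by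
    have e : a' ⟨x.1, hx⟩ = ⟨(a x).1, hax⟩ := Subtype.ext (ha' x hx)
    rw [e]
    exact hb' (a x) hax
  exact h3.symm.trans (h2.trans h4)

/-- The normal closure is contained in every normal extension. -/
lemma normalClosure_le_of_normal {K M : IntermediateField ℚ ℂ} (hKM : K ≤ M)
    [FiniteDimensional ℚ M] (hM : Normal ℚ M) : IntermediateField.normalClosure ℚ K ℂ ≤ M := by
  have key : ∀ (f : K →ₐ[ℚ] ℂ) (x : K), f x ∈ M := by
    intro f x
    let _ : Algebra K M := (IntermediateField.inclusion hKM).toRingHom.toAlgebra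
    let _ : Algebra K ℂ := f.toRingHom.toAlgebra
    have : IsScalarTower ℚ K M := IsScalarTower.of_algebraMap_eq fun _ => rfl
    have : Algebra.IsAlgebraic K M := Algebra.IsAlgebraic.tower_top (K := ℚ) K
    let ψ : M →ₐ[K] ℂ := IsAlgClosed.lift
    have hψ : ψ (algebraMap K M x) = f x := ψ.commutes x
    let ψ' : M →ₐ[ℚ] ℂ := ψ.toRingHom.toRatAlgHom
    have h1 : ψ'.fieldRange = M := @AlgHom.fieldRange_of_normal ℚ ℂ _ _ _ M hM ψ'
    have h2 : ψ' (algebraMap K M x) ∈ ψ'.fieldRange := ⟨_, rfl⟩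
    rw [h1] at h2
    rw [← hψ]
    exact h2
  refine iSup_le fun f => ?_
  rintro _ ⟨x, rfl⟩
  exact key f x

/-- The Galois closure of an abelian extension of `k` is abelian over `k`. -/
lemma AA_comm_normalClosure {k K : IntermediateField ℚ ℂ} [FiniteDimensional ℚ K]
    (hk : Module.finrank ℚ k = 2) (hkK : k ≤ K)
    (hab : IsAbelianGalois k (IntermediateField.extendScalars hkK)) :
    ∀ a ∈ AA k (IntermediateField.normalClosure ℚ K ℂ),
      ∀ b ∈ AA k (IntermediateField.normalClosure ℚ K ℂ), a * b = b * a := by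
  have hNn : Normal ℚ (IntermediateField.normalClosure ℚ K ℂ) := normal_normalClosure K
  have hNf : FiniteDimensional ℚ (IntermediateField.normalClosure ℚ K ℂ) :=
    normalClosure.is_finiteDimensional ℚ K ℂ
  have hKN : K ≤ IntermediateField.normalClosure ℚ K ℂ := IntermediateField.le_normalClosure K
  set N := IntermediateField.normalClosure ℚ K ℂ with hN
  have hAn : (AA k N).Normal :=
    Subgroup.normal_of_index_eq_two (AA_index (hkK.trans hKN) hk)
  have hCn : (⁅AA k N, AA k N⁆ : Subgroup (N ≃ₐ[ℚ] N)).Normal := inferInstance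
  have hCK : ⁅AA k N, AA k N⁆ ≤ AA K N := by
    rw [Subgroup.commutator_le]
    intro a ha b hb x hx
    show a (b (a⁻¹ (b⁻¹ x))) = x
    have h1 := mem_of_AA hkK hKN hab (inv_mem hb) x hx
    have h2 := mem_of_AA hkK hKN hab (inv_mem ha) _ h1
    rw [comm_on hkK hKN hab ha hb _ h2]
    show (b * (a * (a⁻¹ * b⁻¹))) x = x
    have e : b * (a * (a⁻¹ * b⁻¹)) = 1 := by group
    rw [e]
    rfl
  have hKC : K ≤ fix N ⁅AA k N, AA k N⁆ := by
    intro x hx
    exact (mem_fix (x := (⟨x, hKN hx⟩ : N))).2 fun σ hσ => hCK hσ ⟨x, hKN hx⟩ hx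
  have hFn : Normal ℚ (fix N ⁅AA k N, AA k N⁆) := (isGalois_fix _ hCn).to_normal
  have hFf : FiniteDimensional ℚ (fix N ⁅AA k N, AA k N⁆) := finiteDimensional_fix _
  have hNC : N ≤ fix N ⁅AA k N, AA k N⁆ := normalClosure_le_of_normal hKC hFn
  intro a ha b hb
  rw [← commutatorElement_eq_one_iff_mul_comm]
  refine AlgEquiv.ext fun x => ?_
  exact mem_fix.1 (hNC x.2) _ (Subgroup.commutator_mem_commutator ha hb)

lemma fix_anti {L : IntermediateField ℚ ℂ} {C C' : Subgroup (L ≃ₐ[ℚ] L)} (h : C ≤ C') :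
    fix L C' ≤ fix L C := by
  intro x hx
  have hxL : x ∈ L := fix_le _ hx
  exact (mem_fix (x := (⟨x, hxL⟩ : L))).2 fun σ hσ =>
    mem_fix.1 (show (((⟨x, hxL⟩ : L) : L) : ℂ) ∈ fix L C' from hx) σ (h hσ)

/-- The degree of the real subfield. -/
lemma finrank_real (L : IntermediateField ℚ ℂ) [FiniteDimensional ℚ L] [Normal ℚ L]
    (hc : cc L ≠ 1) : Module.finrank ℚ (L ⊓ realField : IntermediateField ℚ ℂ) * 2 =
      Module.finrank ℚ L := by
  have hG : IsGalois ℚ L := ⟨⟩
  rw [← fix_cc, finrank_fix, ← IsGalois.card_aut_eq_finrank ℚ L,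
    ← (Subgroup.zpowers (cc L)).index_mul_card, Nat.card_zpowers]
  congr 1
  have h2 : cc L ^ 2 = 1 := by
    rw [pow_two]
    exact AlgEquiv.ext fun x => cc_cc x
  exact (orderOf_eq_prime h2 hc).symm

variable {p : ℕ} [Fact p.Prime] {B : IntermediateField ℚ ℂ} {P : IntermediateField ℚ ℂ → Prop}

/-- **The reduction** for abelian extensions of imaginary quadratic fields. -/
theorem P_of_abelian [Algebra.IsAlgebraic ℚ B] [IsTotallyReal B] (hP : GenusTheory p B P)
    (hconj : ∀ (L : IntermediateField ℚ ℂ) [FiniteDimensional ℚ L] [Normal ℚ L]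
      (g : L ≃ₐ[ℚ] L), P (fix L (Subgroup.zpowers (cc L))) →
        P (fix L (Subgroup.zpowers (g * cc L * g⁻¹))))
    {k N : IntermediateField ℚ ℂ} [FiniteDimensional ℚ N] [Normal ℚ N] (hkN : k ≤ N)
    (hk : IsImaginaryQuadratic k) (hA : ∀ a ∈ AA k N, ∀ b ∈ AA k N, a * b = b * a)
    (h : ∀ L : IntermediateField ℚ ℂ, IsFiniteAbelian k L → Normal ℚ L →
      ¬ p ∣ Module.finrank ℚ (L ⊓ realField : IntermediateField ℚ ℂ) →
        P (L ⊓ realField) ∧ ∀ F ≤ L, IsAbelianGalois ℚ F → P F)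
    (K : IntermediateField ℚ ℂ) (hKN : K ≤ N) : P K := by
  have hAn : (AA k N).Normal := Subgroup.normal_of_index_eq_two (AA_index hkN hk.1)
  obtain ⟨S⟩ : Nonempty (Sylow p (AA k N)) := inferInstance
  have hSn : (S : Subgroup (AA k N)).Normal := ⟨fun n hn g => by
    have e : g * n * g⁻¹ = n := by
      apply Subtype.ext
      show g.1 * n.1 * g.1⁻¹ = n.1
      rw [hA g.1 g.2 n.1 n.2, mul_inv_cancel_right]
    rw [e]
    exact hn⟩
  have hSc : (S : Subgroup (AA k N)).Characteristic := S.characteristic_of_normal hSn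
  let T : Subgroup (N ≃ₐ[ℚ] N) := (S : Subgroup (AA k N)).map (AA k N).subtype
  have hTn : T.Normal := ConjAct.normal_of_characteristic_of_normal
  have hTp : IsPGroup p T := S.isPGroup'.map (AA k N).subtype
  have hTA : T ≤ AA k N := Subgroup.map_subtype_le _
  have hLf : FiniteDimensional ℚ (fix N T) := finiteDimensional_fix T
  have hLn : Normal ℚ (fix N T) := (isGalois_fix T hTn).to_normal
  have hkL : k ≤ fix N T := by
    have h1 := fix_anti hTA
    rwa [fix_AA hkN] at h1
  have hkalg : Algebra.IsAlgebraic ℚ k := by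
    have : FiniteDimensional ℚ k := FiniteDimensional.of_finrank_pos (by rw [hk.1]; norm_num)
    infer_instance
  have hAL := AA_comm_of_le (k := k) (fix_le T) hA
  have hLab : IsFiniteAbelian k (fix N T) := isFiniteAbelian_of_comm hkL hAL
  have hcne : cc (fix N T) ≠ 1 := by
    intro h1
    apply cc_notMem_AA hkL hk.2
    rw [h1]
    exact one_mem _
  have hdeg : ¬ p ∣ Module.finrank ℚ (fix N T ⊓ realField : IntermediateField ℚ ℂ) := by
    have h1 := finrank_real (fix N T) hcne
    rw [finrank_fix, Subgroup.index_map_subtype, AA_index hkN hk.1] at h1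
    rw [Nat.eq_of_mul_eq_mul_right (by norm_num) h1]
    exact S.not_dvd_index
  obtain ⟨h1, h2⟩ := h _ hLab hLn hdeg
  have hPL : P (fix N T) := P_of_conj hP (fix N T)
    (fun g => hconj _ g (by rwa [fix_cc]))
    (h2 _ (fix_le _) (isAbelianGalois_fix (MM B (fix N T)) MM_normal
      fun g g' => comm_mod_MM hkL hk hAL g g')) (fix N T) le_rfl
  exact P_of_pgroup hP N T hTp hPL K hKN

/-- There are only finitely many characters with values in `ℤ/p` of the absolute Galois group of
`F B` that are trivial on the groups in `𝓘`. -/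
def FewChars (p : ℕ) (𝓘 : Set (Subgroup GQ)) (B F : IntermediateField ℚ ℂ) : Prop :=
  (chars p 𝓘 (absGal F ⊓ absGal B) : Set (GQ → ZMod p)).Finite

lemma fewChars_iff (p : ℕ) [Fact p.Prime] (𝓘 : Set (Subgroup GQ)) (B F : IntermediateField ℚ ℂ) :
    FewChars p 𝓘 B F ↔ Module.Finite (ZMod p) (chars p 𝓘 (absGal F ⊓ absGal B)) := by
  constructor
  · intro h
    have : Finite (chars p 𝓘 (absGal F ⊓ absGal B)) := h
    infer_instance
  · intro h
    exact (Module.finite_of_finite (ZMod p) : Finite (chars p 𝓘 (absGal F ⊓ absGal B)))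

/-- **The reduction** for characters. -/
theorem reduction_quadratic (p : ℕ) [Fact p.Prime] (B : IntermediateField ℚ ℂ) [Normal ℚ B]
    [IsTotallyReal B] (𝓘 : Set (Subgroup GQ)) (h𝓘 : ConjClosed 𝓘) (hfew : FewRamified 𝓘 B) :
    (∀ k K, IsImaginaryQuadratic k → IsFiniteAbelian k K → FewChars p 𝓘 B K) ↔
      ∀ k L, IsImaginaryQuadratic k → IsFiniteAbelian k L → Normal ℚ L →
        ¬ p ∣ Module.finrank ℚ (L ⊓ realField : IntermediateField ℚ ℂ) →
          FewChars p 𝓘 B (L ⊓ realField) ∧ ∀ F ≤ L, IsAbelianGalois ℚ F → FewChars p 𝓘 B F := by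
  have hBalg : Algebra.IsAlgebraic ℚ B := Normal.toIsAlgebraic
  simp only [fewChars_iff]
  have hP := genusTheory_chars (p := p) (B := B) h𝓘 hfew
  constructor
  · intro h k L hk hL hLn _
    have hLf := hL.1
    have h1 := P_of_le hP L (h k L hk hL)
    exact ⟨h1 _ inf_le_left, fun F hF _ => h1 F hF⟩
  · intro h k K hk hK
    obtain ⟨hKf, hkK, hab⟩ := hK
    have hNn : Normal ℚ (IntermediateField.normalClosure ℚ K ℂ) := normal_normalClosure K
    have hNf : FiniteDimensional ℚ (IntermediateField.normalClosure ℚ K ℂ) :=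
      normalClosure.is_finiteDimensional ℚ K ℂ
    have hKN : K ≤ IntermediateField.normalClosure ℚ K ℂ := IntermediateField.le_normalClosure K
    exact P_of_abelian hP (fun L _ _ g hg => finite_chars_fix_conj h𝓘 B L g hg)
      (hkK.trans hKN) hk (AA_comm_normalClosure hk.1 hkK hab) (h k · hk) K hKN

end Pool.Agent.TH127.MU
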